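import Mathlib
import Pool.Agent.H585R2.DiffC

set_option autoImplicit false

/-! Orders of rational functions and of differentials at the points of the projective line. -/

namespace Pool.Agent.U100.BM

open Polynomial Pool.Agent.H585R2.DiffC

variable {k : Type*} [Field k]

/-- order of a polynomial at a point of the projective line -/
noncomputable def po : Option k → k[X] → ℤ
  | none, A => -(A.natDegree : ℤ)
  | some c, A => (A.rootMultiplicity c : ℤ)

/-- order of a rational function at a point of the projective line -/
noncomputable def ord (v : Option k) (x : RatFunc k) : ℤ := po v x.num - po v x.denom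

/-- order of the differential of the coordinate -/
def om : Option k → ℤ
  | none => -2
  | some _ => 0

theorem po_mul (v : Option k) {A B : k[X]} (hA : A ≠ 0) (hB : B ≠ 0) :
    po v (A * B) = po v A + po v B := by
  cases v with
  | none => simp only [po]; rw [natDegree_mul hA hB]; push_cast; ring
  | some c => simp only [po]; rw [rootMultiplicity_mul (mul_ne_zero hA hB)]; push_cast; ring

theorem po_add (v : Option k) {A B : k[X]} (h : A + B ≠ 0) :
    min (po v A) (po v B) ≤ po v (A + B) := by
  cases v with
  | none =>
    simp only [po]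
    have := natDegree_add_le A B
    omega
  | some c =>
    simp only [po]
    have := rootMultiplicity_add c h
    omega

theorem po_C (v : Option k) (c : k) : po v (C c) = 0 := by
  cases v with
  | none => simp [po]
  | some d => simp [po]

theorem ord_div (v : Option k) {A B : k[X]} (hA : A ≠ 0) (hB : B ≠ 0) :
    ord v (algebraMap k[X] (RatFunc k) A / algebraMap k[X] (RatFunc k) B) = po v A - po v B := by
  set x : RatFunc k := algebraMap k[X] (RatFunc k) A / algebraMap k[X] (RatFunc k) B with hx
  have h1 := RatFunc.num_div_denom x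
  have hd : x.denom ≠ 0 := RatFunc.denom_ne_zero x
  have hx0 : x ≠ 0 := div_ne_zero (am_ne hA) (am_ne hB)
  have hn : x.num ≠ 0 := RatFunc.num_ne_zero hx0
  have h2 : x.num * B = A * x.denom := by
    apply RatFunc.algebraMap_injective k
    rw [map_mul, map_mul]
    have h3 : algebraMap k[X] (RatFunc k) x.num / algebraMap k[X] (RatFunc k) x.denom =
        algebraMap k[X] (RatFunc k) A / algebraMap k[X] (RatFunc k) B := by rw [h1]
    rwa [div_eq_div_iff (am_ne hd) (am_ne hB)] at h3
  have h4 : po v (x.num * B) = po v (A * x.denom) := by rw [h2]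
  rw [po_mul v hn hB, po_mul v hA hd] at h4
  unfold ord
  omega

theorem exists_rep {x : RatFunc k} (hx : x ≠ 0) : ∃ A B : k[X], A ≠ 0 ∧ B ≠ 0 ∧ IsCoprime A B ∧
    x = algebraMap k[X] (RatFunc k) A / algebraMap k[X] (RatFunc k) B :=
  ⟨x.num, x.denom, RatFunc.num_ne_zero hx, RatFunc.denom_ne_zero x,
    RatFunc.isCoprime_num_denom x, (RatFunc.num_div_denom x).symm⟩

theorem ord_mul (v : Option k) {x y : RatFunc k} (hx : x ≠ 0) (hy : y ≠ 0) :
    ord v (x * y) = ord v x + ord v y := by
  obtain ⟨A, B, hA, hB, -, rfl⟩ := exists_rep hx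
  obtain ⟨A', B', hA', hB', -, rfl⟩ := exists_rep hy
  rw [div_mul_div_comm, ← map_mul, ← map_mul, ord_div v (mul_ne_zero hA hA') (mul_ne_zero hB hB'),
    ord_div v hA hB, ord_div v hA' hB', po_mul v hA hA', po_mul v hB hB']
  ring

theorem ord_add (v : Option k) {x y : RatFunc k} (hx : x ≠ 0) (hy : y ≠ 0) (h : x + y ≠ 0) :
    min (ord v x) (ord v y) ≤ ord v (x + y) := by
  obtain ⟨A, B, hA, hB, -, rfl⟩ := exists_rep hx
  obtain ⟨A', B', hA', hB', -, rfl⟩ := exists_rep hy
  have e : algebraMap k[X] (RatFunc k) A / algebraMap k[X] (RatFunc k) B +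
      algebraMap k[X] (RatFunc k) A' / algebraMap k[X] (RatFunc k) B' =
      algebraMap k[X] (RatFunc k) (A * B' + B * A') / algebraMap k[X] (RatFunc k) (B * B') := by
    rw [div_add_div _ _ (am_ne hB) (am_ne hB')]
    simp only [map_add, map_mul]
  rw [e] at h ⊢
  have hne : A * B' + B * A' ≠ 0 := by
    intro h0
    rw [h0, map_zero, zero_div] at h
    exact h rfl
  rw [ord_div v hne (mul_ne_zero hB hB'), ord_div v hA hB, ord_div v hA' hB', po_mul v hB hB']
  have h1 := po_add v hne
  rw [po_mul v hA hB', po_mul v hB hA'] at h1
  omega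

theorem ord_const (v : Option k) {c : k} (hc : c ≠ 0) : ord v (algebraMap k (RatFunc k) c) = 0 := by
  have h : (algebraMap k (RatFunc k) c) =
      algebraMap k[X] (RatFunc k) (C c) / algebraMap k[X] (RatFunc k) (C 1) := by
    rw [algebraMap_C]; simp
  rw [h, ord_div v (C_ne_zero.2 hc) (C_ne_zero.2 one_ne_zero), po_C, po_C, sub_zero]

theorem po_wr (v : Option k) {A B : k[X]} (hA : A ≠ 0) (hB : B ≠ 0)
    (h : derivative A * B - A * derivative B ≠ 0) :
    po v A + po v B - 1 - om v ≤ po v (derivative A * B - A * derivative B) := by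
  cases v with
  | none =>
    simp only [po, om]
    have h1 : (derivative A * B - A * derivative B).degree < (A * B).degree := by
      refine lt_of_le_of_lt (degree_sub_le _ _) (max_lt ?_ ?_)
      · rw [degree_mul, degree_mul]
        have := degree_derivative_lt hA
        have hb : B.degree ≠ ⊥ := by rwa [Ne, degree_eq_bot]
        exact WithBot.add_lt_add_right hb this
      · rw [degree_mul, degree_mul]
        have := degree_derivative_lt hB
        have hb : A.degree ≠ ⊥ := by rwa [Ne, degree_eq_bot]
        exact WithBot.add_lt_add_left hb this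
    have h2 := natDegree_lt_natDegree h h1
    rw [natDegree_mul hA hB] at h2
    omega
  | some c =>
    simp only [po, om]
    have h1 : (X - C c) ^ (A.rootMultiplicity c + B.rootMultiplicity c - 1) ∣
        derivative A * B - A * derivative B := by
      have ha := pow_rootMultiplicity_dvd A c
      have hb := pow_rootMultiplicity_dvd B c
      have ha' := pow_sub_one_dvd_derivative_of_pow_dvd ha
      have hb' := pow_sub_one_dvd_derivative_of_pow_dvd hb
      apply dvd_sub
      · refine dvd_trans (pow_dvd_pow _ ?_) (?_ : (X - C c) ^ (A.rootMultiplicity c - 1 +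
          B.rootMultiplicity c) ∣ _)
        · omega
        · rw [pow_add]; exact mul_dvd_mul ha' hb
      · refine dvd_trans (pow_dvd_pow _ ?_) (?_ : (X - C c) ^ (A.rootMultiplicity c +
          (B.rootMultiplicity c - 1)) ∣ _)
        · omega
        · rw [pow_add]; exact mul_dvd_mul ha hb'
    have h2 := (le_rootMultiplicity_iff h).2 h1
    omega

theorem ord_D (v : Option k) {x : RatFunc k} (hx : ddt x ≠ 0) :
    ord v x - 1 ≤ ord v (ddt x) + om v := by
  have hx0 : x ≠ 0 := by rintro rfl; exact hx (map_zero _)
  obtain ⟨A, B, hA, hB, -, rfl⟩ := exists_rep hx0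
  have e : ddt (algebraMap k[X] (RatFunc k) A / algebraMap k[X] (RatFunc k) B) =
      algebraMap k[X] (RatFunc k) (derivative A * B - A * derivative B) /
        algebraMap k[X] (RatFunc k) (B * B) := by
    change dd _ = _
    rw [dd_div _ hB]
    unfold dq
    rw [sq]
  rw [e] at hx ⊢
  have hne : derivative A * B - A * derivative B ≠ 0 := by
    intro h0
    rw [h0, map_zero, zero_div] at hx
    exact hx rfl
  rw [ord_div v hne (mul_ne_zero hB hB), ord_div v hA hB, po_mul v hB hB]
  have := po_wr v hA hB hne
  omega

theorem ord_res (v : Option k) {u : RatFunc k} (hu : u ≠ 0) (h : ord v u = 0) :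
    ∃ c : k, c ≠ 0 ∧ (u = algebraMap k (RatFunc k) c ∨
      (u - algebraMap k (RatFunc k) c ≠ 0 ∧ 1 ≤ ord v (u - algebraMap k (RatFunc k) c))) := by
  obtain ⟨A, B, hA, hB, hc, rfl⟩ := exists_rep hu
  rw [ord_div v hA hB] at h
  have key : ∀ c : k, algebraMap k[X] (RatFunc k) A / algebraMap k[X] (RatFunc k) B -
      algebraMap k (RatFunc k) c =
      algebraMap k[X] (RatFunc k) (A - C c * B) / algebraMap k[X] (RatFunc k) B := by
    intro c
    rw [algebraMap_C, map_sub, map_mul, sub_div, mul_div_cancel_right₀ _ (am_ne hB)]
  cases v with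
  | none =>
    simp only [po] at h
    have hd : A.natDegree = B.natDegree := by omega
    have hlA : A.leadingCoeff ≠ 0 := leadingCoeff_ne_zero.2 hA
    have hlB : B.leadingCoeff ≠ 0 := leadingCoeff_ne_zero.2 hB
    have hc0 : A.leadingCoeff / B.leadingCoeff ≠ 0 := div_ne_zero hlA hlB
    refine ⟨A.leadingCoeff / B.leadingCoeff, hc0, ?_⟩
    by_cases h0 : A - C (A.leadingCoeff / B.leadingCoeff) * B = 0
    · left
      have := key (A.leadingCoeff / B.leadingCoeff)
      rw [h0, map_zero, zero_div] at this
      exact sub_eq_zero.1 this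
    · right
      rw [key]
      refine ⟨div_ne_zero (am_ne h0) (am_ne hB), ?_⟩
      rw [ord_div none h0 hB]
      simp only [po]
      have h1 : (A - C (A.leadingCoeff / B.leadingCoeff) * B).degree < A.degree := by
        apply degree_sub_lt_left _ hA
        · rw [leadingCoeff_mul, leadingCoeff_C, div_mul_cancel₀ _ hlB]
        · rw [degree_C_mul hc0, degree_eq_natDegree hA, degree_eq_natDegree hB, hd]
      have h2 := natDegree_lt_natDegree h0 h1
      omega
  | some c =>
    simp only [po] at h
    have hB0 : B.rootMultiplicity c = 0 := by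
      by_contra hne
      have h1 : 0 < B.rootMultiplicity c := Nat.pos_of_ne_zero hne
      have h2 : 0 < A.rootMultiplicity c := by omega
      have hr1 := (rootMultiplicity_pos hB).1 h1
      have hr2 := (rootMultiplicity_pos hA).1 h2
      obtain ⟨s, t, hst⟩ := hc
      have := congrArg (Polynomial.eval c) hst
      rw [eval_add, eval_mul, eval_mul, hr1.eq_zero, hr2.eq_zero] at this
      simp at this
    have hA0 : A.rootMultiplicity c = 0 := by omega
    have hBc : B.eval c ≠ 0 := by
      intro h0
      have := (rootMultiplicity_pos hB).2 h0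
      omega
    have hAc : A.eval c ≠ 0 := by
      intro h0
      have := (rootMultiplicity_pos hA).2 h0
      omega
    refine ⟨A.eval c / B.eval c, div_ne_zero hAc hBc, ?_⟩
    by_cases h0 : A - C (A.eval c / B.eval c) * B = 0
    · left
      have := key (A.eval c / B.eval c)
      rw [h0, map_zero, zero_div] at this
      exact sub_eq_zero.1 this
    · right
      rw [key]
      refine ⟨div_ne_zero (am_ne h0) (am_ne hB), ?_⟩
      rw [ord_div (some c) h0 hB]
      simp only [po]
      have h1 : (A - C (A.eval c / B.eval c) * B).IsRoot c := by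
        rw [IsRoot.def, eval_sub, eval_mul, eval_C, div_mul_cancel₀ _ hBc, sub_self]
      have h2 := (rootMultiplicity_pos h0).2 h1
      omega

theorem po_sum [IsAlgClosed k] {A : k[X]} (hA : A ≠ 0) (S : Finset (Option k)) (hn : none ∈ S)
    (hS : ∀ c, A.IsRoot c → some c ∈ S) : ∑ v ∈ S, po v A = 0 := by
  classical
  have h1 : ∑ v ∈ insert none (A.roots.toFinset.image some), po v A = ∑ v ∈ S, po v A := by
    apply Finset.sum_subset
    · intro v hv
      rw [Finset.mem_insert, Finset.mem_image] at hv
      rcases hv with rfl | ⟨c, hc, rfl⟩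
      · exact hn
      · rw [Multiset.mem_toFinset, mem_roots hA] at hc
        exact hS c hc
    · intro v _ hv
      rw [Finset.mem_insert, Finset.mem_image] at hv
      push Not at hv
      cases v with
      | none => exact absurd rfl hv.1
      | some c =>
        have : c ∉ A.roots.toFinset := fun h => hv.2 c h rfl
        rw [Multiset.mem_toFinset, mem_roots hA] at this
        simp only [po]
        rw [rootMultiplicity_eq_zero this]; rfl
  rw [← h1, Finset.sum_insert (by simp), Finset.sum_image (by intro a _ b _ h; exact Option.some.inj h)]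
  simp only [po]
  have h2 : ∑ c ∈ A.roots.toFinset, (A.rootMultiplicity c : ℤ) = A.natDegree := by
    have h3 := Multiset.toFinset_sum_count_eq A.roots
    have h4 : Multiset.card A.roots = A.natDegree :=
      (splits_iff_card_roots.1 (IsAlgClosed.splits A))
    rw [h4] at h3
    rw [← h3]
    push_cast
    apply Finset.sum_congr rfl
    intro c _
    rw [count_roots]
  rw [h2]
  ring

theorem ord_sum [IsAlgClosed k] {x : RatFunc k} (hx : x ≠ 0) (P : Finset (Option k))
    (hP : ∀ v, v ∉ P → 0 ≤ ord v x) : ∑ v ∈ P, ord v x ≤ 0 := by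
  classical
  obtain ⟨A, B, hA, hB, -, rfl⟩ := exists_rep hx
  set x : RatFunc k := algebraMap k[X] (RatFunc k) A / algebraMap k[X] (RatFunc k) B with hxd
  set S : Finset (Option k) := P ∪ insert none (A.roots.toFinset.image some ∪
    B.roots.toFinset.image some) with hSd
  have h1 : ∑ v ∈ P, ord v x ≤ ∑ v ∈ S, ord v x := by
    apply Finset.sum_le_sum_of_subset_of_nonneg
    · exact Finset.subset_union_left
    · intro v _ hv
      exact hP v hv
  have h2 : ∑ v ∈ S, ord v x = ∑ v ∈ S, po v A - ∑ v ∈ S, po v B := by
    rw [← Finset.sum_sub_distrib]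
    apply Finset.sum_congr rfl
    intro v _
    exact ord_div v hA hB
  rw [h2, po_sum hA S (by simp [hSd]) (by intro c hc; have hc' : A.eval c = 0 := hc; simp [hSd, hA, hc']),
    po_sum hB S (by simp [hSd]) (by intro c hc; have hc' : B.eval c = 0 := hc; simp [hSd, hB, hc'])] at h1
  simpa using h1

theorem ord_dsum [IsAlgClosed k] {x : RatFunc k} (hx : ddt x ≠ 0) (P : Finset (Option k))
    (hP : ∀ v, v ∉ P → 0 ≤ ord v (ddt x) + om v) :
    ∑ v ∈ P, (ord v (ddt x) + om v) ≤ -2 := by
  classical
  by_cases hn : none ∈ P
  · have h1 := ord_sum hx P (by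
      intro v hv
      have := hP v hv
      cases v with
      | none => exact absurd hn hv
      | some c => simpa [om] using this)
    have h2 : ∑ v ∈ P, om v = -2 := by
      rw [Finset.sum_eq_single none]
      · rfl
      · intro v _ hv
        cases v with
        | none => exact absurd rfl hv
        | some c => rfl
      · intro h; exact absurd hn h
    rw [Finset.sum_add_distrib, h2]
    omega
  · have h1 := ord_sum hx (insert none P) (by
      intro v hv
      rw [Finset.mem_insert] at hv
      push Not at hv
      have := hP v hv.2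
      cases v with
      | none => exact absurd rfl hv.1
      | some c => simpa [om] using this)
    rw [Finset.sum_insert hn] at h1
    have h2 : ∑ v ∈ P, om v = 0 := by
      apply Finset.sum_eq_zero
      intro v hv
      cases v with
      | none => exact absurd hv hn
      | some c => rfl
    rw [Finset.sum_add_distrib, h2]
    have h3 := hP none hn
    simp only [om] at h3
    omega

end Pool.Agent.U100.BM
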