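import Mathlib
import Pool.Agent.U100.BM.Inst

set_option autoImplicit false

/-! Local analysis for the maps `z ^ (P + e) + a z ^ P`. -/

namespace Pool.Agent.U100.BM

open Polynomial

variable {k : Type*} [Field k]

/-- `x` has order at least `n` at `v` -/
def GE (v : Option k) (n : ℤ) (x : RatFunc k) : Prop := x = 0 ∨ n ≤ ord v x

theorem ord_one (v : Option k) : ord v (1 : RatFunc k) = 0 := by
  have := ord_const v (one_ne_zero : (1 : k) ≠ 0)
  rwa [map_one] at this

theorem ord_neg (v : Option k) (x : RatFunc k) : ord v (-x) = ord v x := by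
  by_cases hx : x = 0
  · subst hx; rw [neg_zero]
  · have h := ord_const v (neg_ne_zero.2 (one_ne_zero : (1 : k) ≠ 0))
    rw [map_neg, map_one] at h
    have h2 := ord_mul v (neg_ne_zero.2 (one_ne_zero : (1 : RatFunc k) ≠ 0)) hx
    rw [neg_one_mul, h, zero_add] at h2
    exact h2

theorem ord_pow (v : Option k) {x : RatFunc k} (hx : x ≠ 0) (n : ℕ) :
    ord v (x ^ n) = n * ord v x := by
  induction n with
  | zero => simp [ord_one]
  | succ n ih => rw [pow_succ, ord_mul v (pow_ne_zero n hx) hx, ih]; push_cast; ring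

theorem GE.zero (v : Option k) (n : ℤ) : GE v n 0 := Or.inl rfl

theorem GE.mono {v : Option k} {n m : ℤ} {x : RatFunc k} (h : GE v n x) (hm : m ≤ n) :
    GE v m x := by
  rcases h with h | h
  · exact Or.inl h
  · exact Or.inr (hm.trans h)

theorem GE.add {v : Option k} {n : ℤ} {x y : RatFunc k} (hx : GE v n x) (hy : GE v n y) :
    GE v n (x + y) := by
  rcases hx with rfl | hx
  · rwa [zero_add]
  rcases hy with rfl | hy
  · rw [add_zero]; exact Or.inr hx
  by_cases h0 : x = 0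
  · rw [h0, zero_add]; exact Or.inr hy
  by_cases h1 : y = 0
  · rw [h1, add_zero]; exact Or.inr hx
  by_cases h2 : x + y = 0
  · exact Or.inl h2
  · exact Or.inr ((le_min hx hy).trans (ord_add v h0 h1 h2))

theorem GE.neg {v : Option k} {n : ℤ} {x : RatFunc k} (hx : GE v n x) : GE v n (-x) := by
  rcases hx with rfl | hx
  · rw [neg_zero]; exact Or.inl rfl
  · exact Or.inr (by rwa [ord_neg])

theorem GE.sub {v : Option k} {n : ℤ} {x y : RatFunc k} (hx : GE v n x) (hy : GE v n y) :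
    GE v n (x - y) := by
  rw [sub_eq_add_neg]; exact hx.add hy.neg

theorem GE.mul {v : Option k} {n m : ℤ} {x y : RatFunc k} (hx : GE v n x) (hy : GE v m y) :
    GE v (n + m) (x * y) := by
  by_cases h0 : x = 0
  · rw [h0, zero_mul]; exact Or.inl rfl
  by_cases h1 : y = 0
  · rw [h1, mul_zero]; exact Or.inl rfl
  rcases hx with hx | hx
  · exact absurd hx h0
  rcases hy with hy | hy
  · exact absurd hy h1
  exact Or.inr (by rw [ord_mul v h0 h1]; omega)

theorem GE.const (v : Option k) (c : k) : GE v 0 (algebraMap k (RatFunc k) c) := by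
  by_cases hc : c = 0
  · rw [hc, map_zero]; exact Or.inl rfl
  · exact Or.inr (by rw [ord_const v hc])

theorem GE.pow {v : Option k} {x : RatFunc k} (hx : GE v 0 x) (n : ℕ) : GE v 0 (x ^ n) := by
  induction n with
  | zero => rw [pow_zero]; exact Or.inr (by rw [ord_one])
  | succ n ih => rw [pow_succ]; simpa using ih.mul hx

/-- strict ultrametric inequality -/
theorem ord_add_eq (v : Option k) {x y : RatFunc k} (hx : x ≠ 0) (h : y = 0 ∨ ord v x < ord v y) :
    x + y ≠ 0 ∧ ord v (x + y) = ord v x := by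
  by_cases hy : y = 0
  · subst hy; rw [add_zero]; exact ⟨hx, rfl⟩
  have h : ord v x < ord v y := by
    rcases h with h | h
    · exact absurd h hy
    · exact h
  have h0 : x + y ≠ 0 := by
    intro h0
    have : y = -x := by rw [← sub_eq_zero, sub_neg_eq_add, add_comm]; exact h0
    rw [this, ord_neg] at h
    exact lt_irrefl _ h
  refine ⟨h0, ?_⟩
  have h1 := ord_add v hx hy h0
  have h2 := ord_add v h0 (neg_ne_zero.2 hy) (by rw [add_neg_cancel_right]; exact hx)
  rw [add_neg_cancel_right, ord_neg] at h2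
  rw [min_le_iff] at h1 h2
  omega

/-- `x ≡ c` with `c` a nonzero constant -/
theorem ord_of_const {v : Option k} {x : RatFunc k} {c : k} (hc : c ≠ 0)
    (h : GE v 1 (x - algebraMap k (RatFunc k) c)) : x ≠ 0 ∧ ord v x = 0 := by
  have h1 := ord_add_eq v (x := algebraMap k (RatFunc k) c)
    (y := x - algebraMap k (RatFunc k) c)
    (by rwa [Ne, FaithfulSMul.algebraMap_eq_zero_iff]) (by
      rw [ord_const v hc]
      rcases h with h | h
      · exact Or.inl h
      · right; omega)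
  rw [add_sub_cancel, ord_const v hc] at h1
  exact h1

theorem pow_sub_ge {v : Option k} {x y : RatFunc k} (hx : GE v 0 x) (hy : GE v 0 y)
    (h : GE v 1 (x - y)) (n : ℕ) : GE v 1 (x ^ n - y ^ n) := by
  induction n with
  | zero => rw [pow_zero, pow_zero, sub_self]; exact Or.inl rfl
  | succ n ih =>
    have e : x ^ (n + 1) - y ^ (n + 1) = x * (x ^ n - y ^ n) + (x - y) * y ^ n := by ring
    rw [e]
    refine GE.add ?_ ?_
    · have := hx.mul ih; simpa using this
    · have := h.mul (hy.pow n); simpa using this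

variable {P e : ℕ} {a : RatFunc k} {W : Finset (RatFunc k)}

/-- the map -/
noncomputable def fm (P e : ℕ) (a z : RatFunc k) : RatFunc k := z ^ (P + e) + a * z ^ P

theorem fm_eq (z : RatFunc k) : fm P e a z = z ^ P * (z ^ e + a) := by
  unfold fm; rw [pow_add]; ring

theorem exists_min (v : Option k) {y : RatFunc k} (hy : y ∈ W) (hy0 : y ≠ 0) :
    ∃ x ∈ W, x ≠ 0 ∧ ∀ z ∈ W, z ≠ 0 → ord v x ≤ ord v z := by
  classical
  obtain ⟨x, hx, h⟩ := Finset.exists_min_image (W.filter fun z => z ≠ 0) (ord v)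
    ⟨y, Finset.mem_filter.2 ⟨hy, hy0⟩⟩
  rw [Finset.mem_filter] at hx
  exact ⟨x, hx.1, hx.2, fun z hz hz0 => h z (Finset.mem_filter.2 ⟨hz, hz0⟩)⟩

/-- case of a small element -/
theorem fm_small (v : Option k) (he : 1 ≤ e) {x : RatFunc k} (hx : x ≠ 0)
    (h : a = 0 ∨ e * ord v x < ord v a) :
    fm P e a x ≠ 0 ∧ ord v (fm P e a x) = (P + e) * ord v x := by
  have h1 := ord_add_eq v (pow_ne_zero e hx) (y := a) (by rw [ord_pow v hx]; exact h)
  rw [fm_eq]
  refine ⟨mul_ne_zero (pow_ne_zero P hx) h1.1, ?_⟩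
  rw [ord_mul v (pow_ne_zero P hx) h1.1, h1.2, ord_pow v hx, ord_pow v hx]
  ring

theorem loc_good (hP : 1 ≤ P) (he : 1 ≤ e) (hW : ∀ y ∈ W, fm P e a y ∈ W) (v : Option k)
    (ha : 0 ≤ ord v a) {y : RatFunc k} (hy : y ∈ W) (hy0 : y ≠ 0) : 0 ≤ ord v y := by
  obtain ⟨x, hx, hx0, hmin⟩ := exists_min v hy hy0
  refine le_trans ?_ (hmin y hy hy0)
  by_contra hneg
  push Not at hneg
  have he' : (1 : ℤ) ≤ e := by exact_mod_cast he
  have hP' : (1 : ℤ) ≤ P := by exact_mod_cast hP
  have h1 := fm_small (P := P) v he hx0 (a := a) (Or.inr (by nlinarith))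
  have h2 := hmin _ (hW x hx) h1.1
  rw [h1.2] at h2
  nlinarith

theorem loc_pole (hP : 1 ≤ P) (he : 1 ≤ e) (hW : ∀ y ∈ W, fm P e a y ∈ W) (v : Option k)
    (ha : ord v a < 0) {y : RatFunc k} (hy : y ∈ W) (hy0 : y ≠ 0) :
    ord v a ≤ e * ord v y := by
  obtain ⟨x, hx, hx0, hmin⟩ := exists_min v hy hy0
  have he' : (1 : ℤ) ≤ e := by exact_mod_cast he
  have hP' : (1 : ℤ) ≤ P := by exact_mod_cast hP
  have h3 : (e : ℤ) * ord v x ≤ e * ord v y :=
    mul_le_mul_of_nonneg_left (hmin y hy hy0) (by omega)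
  refine le_trans ?_ h3
  by_contra hneg
  push Not at hneg
  have h1 := fm_small (P := P) v he hx0 (a := a) (Or.inr hneg)
  have h2 := hmin _ (hW x hx) h1.1
  rw [h1.2] at h2
  nlinarith

/-- elements without pole of maximal order -/
theorem loc_alt (hP : 1 ≤ P) (he : 1 ≤ e) (hW : ∀ y ∈ W, fm P e a y ∈ W) (v : Option k)
    (ha : ord v a < 0) {y : RatFunc k} (hy : y ∈ W) (hy0 : y ≠ 0)
    (hne : (e : ℤ) * ord v y ≠ ord v a) :
    fm P e a y ≠ 0 ∧ ord v (fm P e a y) = P * ord v y + ord v a ∧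
      -ord v a * (e - 1) ≤ e * P * ord v y := by
  have h1 := loc_pole hP he hW v ha hy hy0
  have ha0 : a ≠ 0 := by
    rintro rfl
    have : ord v (0 : RatFunc k) = 0 := by
      unfold ord
      rw [RatFunc.num_zero, RatFunc.denom_zero]
      cases v <;> simp [po]
    omega
  have h2 := ord_add_eq v ha0 (y := y ^ e) (Or.inr (by rw [ord_pow v hy0]; omega))
  rw [add_comm] at h2
  have h3 : fm P e a y ≠ 0 := by
    rw [fm_eq]; exact mul_ne_zero (pow_ne_zero P hy0) h2.1
  have h4 : ord v (fm P e a y) = P * ord v y + ord v a := by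
    rw [fm_eq, ord_mul v (pow_ne_zero P hy0) h2.1, h2.2, ord_pow v hy0]
  refine ⟨h3, h4, ?_⟩
  have h5 := loc_pole hP he hW v ha (hW y hy) h3
  rw [h4] at h5
  nlinarith

/-- elements with a pole of maximal order -/
theorem loc_max (hP : 1 ≤ P) (he : 1 ≤ e) (hW : ∀ y ∈ W, fm P e a y ∈ W) (v : Option k)
    (ha : ord v a < 0) {y : RatFunc k} (hy : y ∈ W) (hy0 : y ≠ 0)
    (heq : (e : ℤ) * ord v y = ord v a) :
    y ^ e + a = 0 ∨ -ord v a * (P - 1) ≤ e * ord v (y ^ e + a) := by
  by_cases h0 : y ^ e + a = 0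
  · exact Or.inl h0
  right
  have h3 : fm P e a y ≠ 0 := by
    rw [fm_eq]; exact mul_ne_zero (pow_ne_zero P hy0) h0
  have h5 := loc_pole hP he hW v ha (hW y hy) h3
  rw [fm_eq, ord_mul v (pow_ne_zero P hy0) h0, ord_pow v hy0] at h5
  nlinarith

/-- places at which no element has a pole -/
theorem loc_zero (hP : 2 ≤ P) (he : 1 ≤ e) (hW : ∀ y ∈ W, fm P e a y ∈ W) (v : Option k)
    (ha : ord v a < 0) (hno : ∀ y ∈ W, y ≠ 0 → (e : ℤ) * ord v y ≠ ord v a) {y : RatFunc k}
    (hy : y ∈ W) (hy0 : y ≠ 0) : ((P : ℤ) - 1) * ord v y = -ord v a := by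
  classical
  obtain ⟨x, hx, h⟩ := Finset.exists_max_image (W.filter fun z => z ≠ 0)
    (fun z => |((P : ℤ) - 1) * ord v z + ord v a|) ⟨y, Finset.mem_filter.2 ⟨hy, hy0⟩⟩
  rw [Finset.mem_filter] at hx
  have h1 := loc_alt (by omega) he hW v ha hx.1 hx.2 (hno x hx.1 hx.2)
  have h2 := h (fm P e a x) (Finset.mem_filter.2 ⟨hW x hx.1, h1.1⟩)
  try simp only at h2
  rw [h1.2.1] at h2
  have h3 : ((P : ℤ) - 1) * (P * ord v x + ord v a) + ord v a =
      P * (((P : ℤ) - 1) * ord v x + ord v a) := by ring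
  rw [h3, abs_mul] at h2
  have hP' : (2 : ℤ) ≤ P := by exact_mod_cast hP
  have h4 : |(P : ℤ)| = P := abs_of_nonneg (by omega)
  rw [h4] at h2
  have h5 := abs_nonneg (((P : ℤ) - 1) * ord v x + ord v a)
  have h6 : |((P : ℤ) - 1) * ord v x + ord v a| = 0 := by nlinarith
  have h7 := h y (Finset.mem_filter.2 ⟨hy, hy0⟩)
  try simp only at h7
  rw [h6] at h7
  have h8 := abs_nonneg (((P : ℤ) - 1) * ord v y + ord v a)
  have h9 : ((P : ℤ) - 1) * ord v y + ord v a = 0 := abs_eq_zero.1 (le_antisymm h7 h8)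
  linarith

end Pool.Agent.U100.BM
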