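import Mathlib
import Pool.Agent.U100.BM.Loc

set_option autoImplicit false

/-! The classes of preperiodic points at a pole of `a`. -/

namespace Pool.Agent.U100.BM

open Polynomial

variable {k : Type*} [Field k]

theorem sc_sub {v : Option k} {x y : RatFunc k} {E M : ℤ} (hE : 0 ≤ E)
    (hx : x = 0 ∨ M ≤ E * ord v x) (hy : y = 0 ∨ M ≤ E * ord v y) (h : x - y ≠ 0) :
    M ≤ E * ord v (x - y) := by
  by_cases h0 : x = 0
  · subst h0
    rw [zero_sub, ord_neg]
    rcases hy with rfl | hy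
    · exact absurd (sub_zero _) h
    · exact hy
  by_cases h1 : y = 0
  · subst h1
    rw [sub_zero]
    rcases hx with rfl | hx
    · exact absurd rfl h0
    · exact hx
  have hx' : M ≤ E * ord v x := by
    rcases hx with h | h
    · exact absurd h h0
    · exact h
  have hy' : M ≤ E * ord v y := by
    rcases hy with h | h
    · exact absurd h h1
    · exact h
  have h2 := ord_add v h0 (neg_ne_zero.2 h1) (by rwa [← sub_eq_add_neg])
  rw [ord_neg, ← sub_eq_add_neg] at h2
  rcases min_le_iff.1 h2 with h3 | h3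
  · exact hx'.trans (mul_le_mul_of_nonneg_left h3 hE)
  · exact hy'.trans (mul_le_mul_of_nonneg_left h3 hE)

variable {p : ℕ} [hp : Fact p.Prime] [hK : CharP (RatFunc k) p] {s t n : ℕ}
  {a : RatFunc k} {W : Finset (RatFunc k)}

theorem pole_pow (hn : 1 ≤ n)
    (hW : ∀ y ∈ W, fm (p ^ s) (p ^ t * n) a y ∈ W) (v : Option k) (ha : ord v a < 0)
    {y z : RatFunc k} (hy : y ∈ W) (hy0 : y ≠ 0)
    (hye : ((p ^ t * n : ℕ) : ℤ) * ord v y = ord v a) (hz : z ∈ W) (hz0 : z ≠ 0)
    (hze : ((p ^ t * n : ℕ) : ℤ) * ord v z = ord v a) :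
    y ^ n - z ^ n = 0 ∨
      -ord v a * ((p ^ s : ℕ) - 1) ≤ ((p ^ t * n : ℕ) : ℤ) * (p ^ t : ℕ) * ord v (y ^ n - z ^ n) := by
  by_cases h0 : y ^ n - z ^ n = 0
  · exact Or.inl h0
  right
  have hpp := hp.out.pos
  have hP : 1 ≤ p ^ s := Nat.one_le_pow _ _ hpp
  have he : 1 ≤ p ^ t * n := Nat.one_le_iff_ne_zero.2
    (mul_ne_zero (pow_ne_zero _ hpp.ne') (by omega))
  have h1 := loc_max hP he hW v ha hy hy0 hye
  have h2 := loc_max hP he hW v ha hz hz0 hze
  have h3 : (y ^ (p ^ t * n) + a) - (z ^ (p ^ t * n) + a) = (y ^ n - z ^ n) ^ (p ^ t) := by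
    rw [sub_pow_char_pow, ← pow_mul, ← pow_mul, mul_comm n]
    ring
  have h4 := sc_sub (v := v) (E := ((p ^ t * n : ℕ) : ℤ)) (by positivity) h1 h2
    (by rw [h3]; exact pow_ne_zero _ h0)
  rw [h3, ord_pow v h0] at h4
  rw [mul_assoc]
  exact h4

/-- two elements with a pole of maximal order and close to each other -/
theorem same_class (hts : t ≤ s) (hn : 1 ≤ n) (hnk : (n : k) ≠ 0)
    (hW : ∀ y ∈ W, fm (p ^ s) (p ^ t * n) a y ∈ W) (v : Option k) (ha : ord v a < 0)
    {y z : RatFunc k} (hy : y ∈ W) (hy0 : y ≠ 0)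
    (hye : ((p ^ t * n : ℕ) : ℤ) * ord v y = ord v a) (hz : z ∈ W) (hz0 : z ≠ 0)
    (hze : ((p ^ t * n : ℕ) : ℤ) * ord v z = ord v a) (hyz : y ≠ z) (hcl : GE v 1 (y / z - 1)) :
    -ord v a * (((p ^ t * n : ℕ) : ℤ) - 1) ≤
      ((p ^ t * n : ℕ) : ℤ) * (p ^ s : ℕ) * ord v (y - z) := by
  set w := y / z with hw
  have hyw : y = w * z := by rw [hw, div_mul_cancel₀ _ hz0]
  have hw1 : w - 1 ≠ 0 := by
    intro h0
    rw [sub_eq_zero.1 h0, one_mul] at hyw
    exact hyz hyw
  have hwG : GE v 0 w := by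
    have h1 := (hcl.mono (by norm_num : (0 : ℤ) ≤ 1)).add (GE.const v (1 : k))
    rw [map_one, sub_add_cancel] at h1
    exact h1
  have hgs : GE v 1 ((∑ i ∈ Finset.range n, w ^ i) - algebraMap k (RatFunc k) (n : k)) := by
    have e : (∑ i ∈ Finset.range n, w ^ i) - algebraMap k (RatFunc k) (n : k) =
        ∑ i ∈ Finset.range n, (w ^ i - 1) := by
      rw [Finset.sum_sub_distrib]
      simp
    rw [e]
    refine Finset.sum_induction _ (GE v 1) (fun x y hx hy => hx.add hy) (GE.zero v 1) ?_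
    intro i _
    have := pow_sub_ge hwG (y := 1) (Or.inr (by rw [ord_one])) hcl i
    rwa [one_pow] at this
  have hgs2 := ord_of_const hnk hgs
  have hgm := geom_sum_mul w n
  have hwn : w ^ n - 1 ≠ 0 := by
    rw [← hgm]; exact mul_ne_zero hgs2.1 hw1
  have hown : ord v (w ^ n - 1) = ord v (w - 1) := by
    rw [← hgm, ord_mul v hgs2.1 hw1, hgs2.2, zero_add]
  have e1 : y ^ n - z ^ n = (w ^ n - 1) * z ^ n := by rw [hyw]; ring
  have e2 : y - z = (w - 1) * z := by rw [hyw]; ring
  have h1 := pole_pow hn hW v ha hy hy0 hye hz hz0 hze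
  rw [e1] at h1
  have h1' := h1.resolve_left (mul_ne_zero hwn (pow_ne_zero _ hz0))
  rw [ord_mul v hwn (pow_ne_zero _ hz0), hown, ord_pow v hz0] at h1'
  rw [e2, ord_mul v hw1 hz0]
  obtain ⟨r, rfl⟩ := Nat.exists_eq_add_of_le hts
  have hq : (1 : ℤ) ≤ (p ^ t : ℕ) := by
    exact_mod_cast Nat.one_le_pow _ _ hp.out.pos
  have hr : (1 : ℤ) ≤ (p ^ r : ℕ) := by
    exact_mod_cast Nat.one_le_pow _ _ hp.out.pos
  have hn' : (1 : ℤ) ≤ n := by exact_mod_cast hn
  have epow : ((p ^ (t + r) : ℕ) : ℤ) = (p ^ t : ℕ) * (p ^ r : ℕ) := by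
    push_cast; rw [pow_add]
  rw [epow] at h1' ⊢
  have een : ((p ^ t * n : ℕ) : ℤ) = (p ^ t : ℕ) * n := by push_cast; ring
  rw [een] at h1' hze ⊢
  set Q : ℤ := ((p ^ t : ℕ) : ℤ) with hQ
  set R : ℤ := ((p ^ r : ℕ) : ℤ) with hR
  set m : ℤ := -ord v a with hm
  have hm0 : 1 ≤ m := by omega
  set O : ℤ := ord v (w - 1)
  set Z : ℤ := ord v z
  -- h1' : m * (Q * R - 1) ≤ Q * n * Q * (O + n * Z), hze : Q * n * Z = - m
  have hze' : Q * n * Z = -m := by rw [hze, hm]; ring
  have h5 : m * (Q * R - 1) + Q * n * m ≤ Q * n * Q * O := by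
    have : Q * n * Q * (O + n * Z) = Q * n * Q * O + Q * n * (Q * n * Z) := by ring
    rw [this, hze'] at h1'
    linarith
  have h6 : Q * n * (Q * R) * (O + Z) = R * (Q * n * Q * O) + Q * R * (Q * n * Z) := by ring
  rw [h6, hze']
  have h7 : R * (m * (Q * R - 1) + Q * n * m) ≤ R * (Q * n * Q * O) :=
    mul_le_mul_of_nonneg_left h5 (by omega)
  have h8 : m * (Q * n - 1) ≤ R * (m * (Q * R - 1) + Q * n * m) + Q * R * -m := by
    have h9 : R * (m * (Q * R - 1) + Q * n * m) + Q * R * -m - m * (Q * n - 1) =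
        m * ((R - 1) * (Q * R - 1 + Q * n)) := by
      ring
    have h10 : 0 ≤ m * ((R - 1) * (Q * R - 1 + Q * n)) := by
      apply mul_nonneg (by omega)
      apply mul_nonneg (by omega)
      nlinarith
    linarith
  linarith

/-- the classes -/
theorem classes (hts : t ≤ s) (hn : 1 ≤ n) (hnk : (n : k) ≠ 0)
    (hW : ∀ y ∈ W, fm (p ^ s) (p ^ t * n) a y ∈ W) (v : Option k) (ha : ord v a < 0) :
    ∃ (c : RatFunc k → Option k) (T : Finset (Option k)), T.card ≤ n + 1 ∧ (∀ y ∈ W, c y ∈ T) ∧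
      ∀ y ∈ W, ∀ z ∈ W, y ≠ z → c y = c z →
        -ord v a * (((p ^ t * n : ℕ) : ℤ) - 1) ≤
          ((p ^ t * n : ℕ) : ℤ) * (p ^ s : ℕ) * ord v (y - z) := by
  classical
  have hpp := hp.out.pos
  have hP : 1 ≤ p ^ s := Nat.one_le_pow _ _ hpp
  have he : 1 ≤ p ^ t * n := Nat.one_le_iff_ne_zero.2
    (mul_ne_zero (pow_ne_zero _ hpp.ne') (by omega))
  have hnon : ∀ y ∈ W, ¬ (y ≠ 0 ∧ ((p ^ t * n : ℕ) : ℤ) * ord v y = ord v a) →
      y = 0 ∨ -ord v a * (((p ^ t * n : ℕ) : ℤ) - 1) ≤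
        ((p ^ t * n : ℕ) : ℤ) * (p ^ s : ℕ) * ord v y := by
    intro y hy hno
    by_cases hy0 : y = 0
    · exact Or.inl hy0
    · right
      exact (loc_alt hP he hW v ha hy hy0 (fun h => hno ⟨hy0, h⟩)).2.2
  by_cases hex : ∃ y0 ∈ W, y0 ≠ 0 ∧ ((p ^ t * n : ℕ) : ℤ) * ord v y0 = ord v a
  · obtain ⟨y0, hy0W, hy00, hy0e⟩ := hex
    have hee : ((p ^ t * n : ℕ) : ℤ) ≠ 0 := by exact_mod_cast (by omega : p ^ t * n ≠ 0)
    have hord : ∀ y : RatFunc k, y ≠ 0 → ((p ^ t * n : ℕ) : ℤ) * ord v y = ord v a →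
        ord v (y / y0) = 0 := by
      intro y hy hye
      have h1 : ord v y = ord v y0 := mul_left_cancel₀ hee (by rw [hye, hy0e])
      have h2 := ord_mul v (div_ne_zero hy hy00) hy00
      rw [div_mul_cancel₀ _ hy00] at h2
      omega
    have hc : ∀ y : RatFunc k, ∃ c : Option k,
        ((y ≠ 0 ∧ ((p ^ t * n : ℕ) : ℤ) * ord v y = ord v a) →
          ∃ l : k, l ≠ 0 ∧ c = some l ∧ GE v 1 (y / y0 - algebraMap k (RatFunc k) l)) ∧
        (¬ (y ≠ 0 ∧ ((p ^ t * n : ℕ) : ℤ) * ord v y = ord v a) → c = none) := by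
      intro y
      by_cases h : y ≠ 0 ∧ ((p ^ t * n : ℕ) : ℤ) * ord v y = ord v a
      · obtain ⟨l, hl, hl2⟩ := ord_res v (div_ne_zero h.1 hy00) (hord y h.1 h.2)
        refine ⟨some l, fun _ => ⟨l, hl, rfl, ?_⟩, fun h' => absurd h h'⟩
        rcases hl2 with h2 | h2
        · left; rw [h2, sub_self]
        · right; exact h2.2
      · exact ⟨none, fun h' => absurd h' h, fun _ => rfl⟩
    choose c hc1 hc2 using hc
    refine ⟨c, insert none ((nthRoots n (1 : k)).toFinset.image some), ?_, ?_, ?_⟩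
    · refine (Finset.card_insert_le _ _).trans ?_
      have h1 := Finset.card_image_le (s := (nthRoots n (1 : k)).toFinset) (f := some)
      have h2 := Multiset.toFinset_card_le (nthRoots n (1 : k))
      have h3 := card_nthRoots n (1 : k)
      omega
    · intro y hy
      by_cases h : y ≠ 0 ∧ ((p ^ t * n : ℕ) : ℤ) * ord v y = ord v a
      · obtain ⟨l, hl, hcl, hge⟩ := hc1 y h
        rw [hcl]
        apply Finset.mem_insert_of_mem
        apply Finset.mem_image_of_mem
        rw [Multiset.mem_toFinset, mem_nthRoots (by omega)]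
        have h1 := pole_pow hn hW v ha hy h.1 h.2 hy0W hy00 hy0e
        have hord2 := hord y h.1 h.2
        set u := y / y0 with hu
        have hyu : y = u * y0 := by rw [hu, div_mul_cancel₀ _ hy00]
        have hu0 : u ≠ 0 := div_ne_zero h.1 hy00
        have h2 : GE v 1 (u ^ n - 1) := by
          have e1 : y ^ n - y0 ^ n = (u ^ n - 1) * y0 ^ n := by rw [hyu]; ring
          rw [e1] at h1
          by_cases h3 : u ^ n - 1 = 0
          · exact Or.inl h3
          · right
            have h4 := h1.resolve_left (mul_ne_zero h3 (pow_ne_zero _ hy00))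
            rw [ord_mul v h3 (pow_ne_zero _ hy00), ord_pow v hy00] at h4
            have hQ : (1 : ℤ) ≤ (p ^ t : ℕ) := by
              exact_mod_cast Nat.one_le_pow _ _ hpp
            have hPz : (1 : ℤ) ≤ (p ^ s : ℕ) := by exact_mod_cast hP
            have hEz : (1 : ℤ) ≤ (p ^ t * n : ℕ) := by exact_mod_cast he
            have hnz : (1 : ℤ) ≤ n := by exact_mod_cast hn
            have h5 : ord v y0 < 0 := by nlinarith
            by_contra h6
            push Not at h6
            have h7 : ord v (u ^ n - 1) + n * ord v y0 < 0 := by nlinarith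
            have h8 : ((p ^ t * n : ℕ) : ℤ) * (p ^ t : ℕ) *
              (ord v (u ^ n - 1) + n * ord v y0) < 0 :=
              mul_neg_of_pos_of_neg (by positivity) h7
            have h9 : 0 ≤ -ord v a * (((p ^ s : ℕ) : ℤ) - 1) :=
              mul_nonneg (by omega) (by omega)
            omega
        by_contra hne
        have h3 := pow_sub_ge (Or.inr (by rw [hord2]) : GE v 0 u) (GE.const v l) hge n
        have h4 := h2.sub h3
        have e2 : u ^ n - 1 - (u ^ n - algebraMap k (RatFunc k) l ^ n) =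
            algebraMap k (RatFunc k) (l ^ n - 1) := by
          rw [map_sub, map_pow, map_one]; ring
        rw [e2] at h4
        have h5 : l ^ n - 1 ≠ 0 := sub_ne_zero.2 hne
        rcases h4 with h4 | h4
        · rw [FaithfulSMul.algebraMap_eq_zero_iff] at h4
          exact h5 h4
        · rw [ord_const v h5] at h4
          omega
      · rw [hc2 y h]
        exact Finset.mem_insert_self _ _
    · intro y hy z hz hyz hcc
      by_cases h : y ≠ 0 ∧ ((p ^ t * n : ℕ) : ℤ) * ord v y = ord v a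
      · obtain ⟨l, hl, hcl, hge⟩ := hc1 y h
        by_cases h' : z ≠ 0 ∧ ((p ^ t * n : ℕ) : ℤ) * ord v z = ord v a
        · obtain ⟨l', hl', hcl', hge'⟩ := hc1 z h'
          rw [hcl, hcl', Option.some.injEq] at hcc
          subst hcc
          refine same_class hts hn hnk hW v ha hy h.1 h.2 hz h'.1 h'.2 hyz ?_
          have h1 := hge.sub hge'
          rw [sub_sub_sub_cancel_right] at h1
          have h2 : ord v (y0 / z) = 0 := by
            have h3 := hord z h'.1 h'.2
            have h4 := ord_mul v (div_ne_zero h'.1 hy00) (div_ne_zero hy00 h'.1)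
            rw [div_mul_div_cancel₀ hy00, div_self h'.1, ord_one] at h4
            omega
          have h3 := h1.mul (Or.inr (by rw [h2]) : GE v 0 (y0 / z))
          have e3 : (y / y0 - z / y0) * (y0 / z) = y / z - 1 := by
            have := h'.1
            field_simp
          rw [e3] at h3
          simpa using h3
        · rw [hcl, hc2 z h'] at hcc
          exact absurd hcc (by simp)
      · by_cases h' : z ≠ 0 ∧ ((p ^ t * n : ℕ) : ℤ) * ord v z = ord v a
        · obtain ⟨l', hl', hcl', hge'⟩ := hc1 z h'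
          rw [hcl', hc2 y h] at hcc
          exact absurd hcc (by simp)
        · exact sc_sub (by positivity) (hnon y hy h) (hnon z hz h') (sub_ne_zero.2 hyz)
  · push Not at hex
    refine ⟨fun _ => none, {none}, by simp, by simp, ?_⟩
    intro y hy z hz hyz _
    exact sc_sub (by positivity) (hnon y hy (fun h => hex y hy h.1 h.2))
      (hnon z hz (fun h => hex z hz h.1 h.2)) (sub_ne_zero.2 hyz)

end Pool.Agent.U100.BM
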