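import Mathlib
import Pool.Agent.U100.BM.Cls

set_option autoImplicit false

/-! The sums over the pairs and over the places. -/

namespace Pool.Agent.U100.BM

open Polynomial Pool.Agent.H585R2.DiffC

/-- number of pairs in the same class -/
theorem pairs_card {α β : Type*} [DecidableEq α] [DecidableEq β] (W : Finset α) (c : α → β)
    (T : Finset β) (hc : ∀ y ∈ W, c y ∈ T) :
    W.card ^ 2 ≤ T.card * ((W.offDiag.filter fun x => c x.1 = c x.2).card + W.card) := by
  have h1 : W.card = ∑ j ∈ T, (W.filter fun y => c y = j).card :=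
    Finset.card_eq_sum_card_fiberwise hc
  have h2 : ((W ×ˢ W).filter fun x => c x.1 = c x.2).card =
      ∑ j ∈ T, (W.filter fun y => c y = j).card ^ 2 := by
    rw [Finset.card_eq_sum_card_fiberwise (f := fun x : α × α => c x.1) (t := T)]
    · apply Finset.sum_congr rfl
      intro j _
      have e : (((W ×ˢ W).filter fun x => c x.1 = c x.2).filter fun x => c x.1 = j) =
          (W.filter fun y => c y = j) ×ˢ (W.filter fun y => c y = j) := by
        ext x
        simp only [Finset.mem_filter, Finset.mem_product]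
        constructor
        · rintro ⟨⟨⟨h1, h2⟩, h3⟩, h4⟩
          exact ⟨⟨h1, h4⟩, ⟨h2, by rw [← h3]; exact h4⟩⟩
        · rintro ⟨⟨h1, h2⟩, ⟨h3, h4⟩⟩
          exact ⟨⟨⟨h1, h3⟩, by rw [h2, h4]⟩, h2⟩
      rw [e, Finset.card_product, sq]
    · intro x hx
      have hx' := (Finset.mem_filter.1 (Finset.mem_coe.1 hx)).1
      exact hc _ (Finset.mem_product.1 hx').1
  have h3 : ((W ×ˢ W).filter fun x => c x.1 = c x.2).card ≤
      (W.offDiag.filter fun x => c x.1 = c x.2).card + W.card := by
    have h4 : ((W ×ˢ W).filter fun x => c x.1 = c x.2) ⊆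
        (W.offDiag.filter fun x => c x.1 = c x.2) ∪ W.image fun y => (y, y) := by
      intro x hx
      rw [Finset.mem_filter, Finset.mem_product] at hx
      rw [Finset.mem_union, Finset.mem_filter, Finset.mem_offDiag, Finset.mem_image]
      by_cases h : x.1 = x.2
      · right
        exact ⟨x.1, hx.1.1, Prod.ext rfl h⟩
      · left
        exact ⟨⟨hx.1.1, hx.1.2, h⟩, hx.2⟩
    refine (Finset.card_le_card h4).trans ((Finset.card_union_le _ _).trans ?_)
    exact Nat.add_le_add_left Finset.card_image_le _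
  have h5 := sq_sum_le_card_mul_sum_sq (s := T) (f := fun j => (W.filter fun y => c y = j).card)
  rw [← h1, ← h2] at h5
  exact h5.trans (Nat.mul_le_mul_left _ h3)

variable {k : Type*} [Field k]

/-- the sum over the pairs, at a pole of `a` -/
theorem pairs_lower (W : Finset (RatFunc k)) (v : Option k) (c : RatFunc k → Option k)
    (T : Finset (Option k)) (n : ℕ) (hT : T.card ≤ n + 1) (hc : ∀ y ∈ W, c y ∈ T)
    (m e P : ℤ) (hm : 1 ≤ m) (he : 1 ≤ e) (hP : 1 ≤ P)
    (h1 : ∀ y ∈ W, ∀ z ∈ W, y ≠ z → c y = c z → m * (e - 1) ≤ e * P * ord v (y - z))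
    (h2 : ∀ y ∈ W, y ≠ 0 → -m ≤ e * ord v y) :
    -(m * W.card * (W.card * (((n : ℤ) + 1) * P - P - e + 1) + (n + 1) * (e - 1))) ≤
      ((n : ℤ) + 1) * (e * P * ∑ x ∈ W.offDiag, ord v (x.1 - x.2)) := by
  classical
  set S := (W.offDiag.filter fun x => c x.1 = c x.2).card with hS
  have h3 : (W.card : ℤ) ^ 2 ≤ ((n : ℤ) + 1) * (S + W.card) := by
    have h4 := pairs_card W c T hc
    rw [← hS] at h4
    have h5 : W.card ^ 2 ≤ (n + 1) * (S + W.card) :=
      h4.trans (Nat.mul_le_mul_right _ hT)
    exact_mod_cast h5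
  have h6 : ∀ x ∈ W.offDiag, (if c x.1 = c x.2 then m * (e - 1) + m * P else 0) + -(m * P) ≤
      e * P * ord v (x.1 - x.2) := by
    intro x hx
    rw [Finset.mem_offDiag] at hx
    split_ifs with hcc
    · have := h1 x.1 hx.1 x.2 hx.2.1 hx.2.2 hcc
      linarith
    · have h7 := sc_sub (v := v) (x := x.1) (y := x.2) (E := e) (M := -m) (by omega)
        (by
          by_cases h0 : x.1 = 0
          · exact Or.inl h0
          · exact Or.inr (h2 _ hx.1 h0))
        (by
          by_cases h0 : x.2 = 0
          · exact Or.inl h0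
          · exact Or.inr (h2 _ hx.2.1 h0)) (sub_ne_zero.2 hx.2.2)
      nlinarith
  have h7 := Finset.sum_le_sum h6
  rw [Finset.sum_add_distrib, ← Finset.sum_filter, Finset.sum_const, Finset.sum_const, ← hS,
    ← Finset.mul_sum, Finset.offDiag_card] at h7
  have h8 : ((W.card * W.card - W.card : ℕ) : ℤ) = (W.card : ℤ) * W.card - W.card := by
    rw [Nat.cast_sub (Nat.le_mul_self _)]
    push_cast; ring
  rw [nsmul_eq_mul, nsmul_eq_mul, h8] at h7
  set N : ℤ := (W.card : ℤ)
  set Sg := ∑ x ∈ W.offDiag, ord v (x.1 - x.2)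
  have hn0 : (0 : ℤ) ≤ n := by positivity
  have h9 := mul_le_mul_of_nonneg_left h7 (by omega : (0 : ℤ) ≤ (n : ℤ) + 1)
  have h10 : (N ^ 2 - ((n : ℤ) + 1) * N) * (m * (e - 1) + m * P) ≤
      ((n : ℤ) + 1) * (S * (m * (e - 1) + m * P)) := by
    have h11 : N ^ 2 - ((n : ℤ) + 1) * N ≤ ((n : ℤ) + 1) * S := by linarith
    have h12 : 0 ≤ m * (e - 1) + m * P := by
      have : 0 ≤ m * (e - 1) := mul_nonneg (by omega) (by omega)
      have : 0 ≤ m * P := mul_nonneg (by omega) (by omega)
      omega
    have := mul_le_mul_of_nonneg_right h11 h12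
    linarith
  nlinarith

/-- the sum over the pairs, at a pole of `a` where no preperiodic point has a pole -/
theorem pairs_lower' (W : Finset (RatFunc k)) (v : Option k) (m P : ℤ) (hP : 2 ≤ P)
    (h2 : ∀ y ∈ W, y ≠ 0 → (P - 1) * ord v y = m) :
    m * ((W.card : ℤ) * W.card - W.card) ≤
      (P - 1) * ∑ x ∈ W.offDiag, ord v (x.1 - x.2) := by
  classical
  have h6 : ∀ x ∈ W.offDiag, m ≤ (P - 1) * ord v (x.1 - x.2) := by
    intro x hx
    rw [Finset.mem_offDiag] at hx
    exact sc_sub (v := v) (x := x.1) (y := x.2) (E := P - 1) (M := m) (by omega)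
        (by
          by_cases h0 : x.1 = 0
          · exact Or.inl h0
          · exact Or.inr (h2 _ hx.1 h0).ge)
        (by
          by_cases h0 : x.2 = 0
          · exact Or.inl h0
          · exact Or.inr (h2 _ hx.2.1 h0).ge) (sub_ne_zero.2 hx.2.2)
  have h7 := Finset.sum_le_sum h6
  rw [Finset.sum_const, ← Finset.mul_sum, Finset.offDiag_card, nsmul_eq_mul,
    Nat.cast_sub (Nat.le_mul_self _)] at h7
  push_cast at h7
  linarith

/-- a common lower bound for the order of a differential -/
theorem dord_ge (v : Option k) {x : RatFunc k} (hx : ddt x ≠ 0) (h : 0 ≤ ord v x) :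
    0 ≤ ord v (ddt x) + om v := by
  have hx0 : x ≠ 0 := by rintro rfl; exact hx (map_zero _)
  by_cases h1 : 1 ≤ ord v x
  · have := ord_D v hx
    omega
  · obtain ⟨c, hc, h2⟩ := ord_res v hx0 (by omega)
    have e : ddt (x - algebraMap k (RatFunc k) c) = ddt x := by
      rw [map_sub, Derivation.map_algebraMap, sub_zero]
    rcases h2 with h2 | h2
    · rw [h2, Derivation.map_algebraMap] at hx
      exact absurd rfl hx
    · have h3 := ord_D v (x := x - algebraMap k (RatFunc k) c) (by rwa [e])
      rw [e] at h3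
      omega

variable {p : ℕ} [hp : Fact p.Prime] [hK : CharP (RatFunc k) p] {s t n : ℕ}
  {a : RatFunc k} {W : Finset (RatFunc k)}

theorem ddt_fm (ht : 1 ≤ t) (hs : 1 ≤ s) (y : RatFunc k) :
    ddt (fm (p ^ s) (p ^ t * n) a y) = y ^ (p ^ s) * ddt a := by
  have hps : ((p ^ s : ℕ) : RatFunc k) = 0 := by
    rw [Nat.cast_pow, CharP.cast_eq_zero, zero_pow (by omega)]
  have hpt : ((p ^ t : ℕ) : RatFunc k) = 0 := by
    rw [Nat.cast_pow, CharP.cast_eq_zero, zero_pow (by omega)]
  unfold fm
  rw [map_add, Derivation.leibniz, Derivation.leibniz_pow, Derivation.leibniz_pow]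
  have h1 : ((p ^ s + p ^ t * n : ℕ) : RatFunc k) = 0 := by
    rw [Nat.cast_add, Nat.cast_mul, hps, hpt, zero_mul, add_zero]
  rw [← Nat.cast_smul_eq_nsmul (RatFunc k), ← Nat.cast_smul_eq_nsmul (RatFunc k), h1, hps]
  simp

/-- the main inequality -/
theorem main_ineq [IsAlgClosed k] (hP3 : 3 ≤ p ^ s) (ht : 1 ≤ t) (hts : t ≤ s) (hn : 1 ≤ n)
    (hnk : (n : k) ≠ 0) (hW : ∀ y ∈ W, fm (p ^ s) (p ^ t * n) a y ∈ W) (hDa : ddt a ≠ 0) :
    (W.card : ℤ) * ((p ^ s : ℕ) + (p ^ t * n : ℕ) - 1 - 2 * (n + 1)) <
      (n + 1) * ((p ^ s : ℕ) + (p ^ t * n : ℕ) - 3) := by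
  classical
  have hpp := hp.out.pos
  have hPz : (3 : ℤ) ≤ (p ^ s : ℕ) := by exact_mod_cast hP3
  have he : 1 ≤ p ^ t * n := Nat.one_le_iff_ne_zero.2
    (mul_ne_zero (pow_ne_zero _ hpp.ne') (by omega))
  have hEz : (1 : ℤ) ≤ (p ^ t * n : ℕ) := by exact_mod_cast he
  have hnz : (1 : ℤ) ≤ n := by exact_mod_cast hn
  by_contra hcon
  push Not at hcon
  -- number of points at least two
  have hPe : ((p ^ t * n : ℕ) : ℤ) ≤ (p ^ s : ℕ) * n := by
    have := Nat.mul_le_mul_right n (Nat.pow_le_pow_right hpp hts)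
    exact_mod_cast this
  have ha0 : a ≠ 0 := by rintro rfl; exact hDa (map_zero _)
  set P : ℤ := ((p ^ s : ℕ) : ℤ) with hPd
  set e : ℤ := ((p ^ t * n : ℕ) : ℤ) with hed
  set N : ℤ := (W.card : ℤ) with hNd
  have hN0 : 0 ≤ N := by positivity
  have hN2 : 2 ≤ N := by
    by_contra hN
    push Not at hN
    rcases (by omega : N = 0 ∨ N = 1) with h | h
    · rw [h, zero_mul] at hcon
      have : 0 < (n + 1) * (P + e - 3) := by
        apply mul_pos (by omega)
        have : (2 : ℤ) ≤ e := by
          have h3 : 2 ≤ p ^ t * n := by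
            have h4 : 2 ≤ p ^ t := (hp.out.two_le).trans (Nat.le_self_pow (by omega) p)
            nlinarith
          rw [hed]
          exact_mod_cast h3
        omega
      omega
    · rw [h, one_mul] at hcon
      nlinarith
  -- the poles of `a`
  obtain ⟨Pa, hPa⟩ : ∃ Pa : Finset (Option k), ∀ v, v ∈ Pa ↔ ord v a < 0 := by
    have hfin : {v : Option k | ord v a < 0}.Finite := by
      apply Set.Finite.subset (Finset.finite_toSet
        (insert none (a.denom.roots.toFinset.image some)))
      intro v hv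
      cases v with
      | none => simp
      | some c =>
        have h1 : ord (some c) a < 0 := hv
        simp only [ord, po] at h1
        have h2 : 0 < a.denom.rootMultiplicity c := by omega
        have h3 := (rootMultiplicity_pos (RatFunc.denom_ne_zero a)).1 h2
        have h4 : eval c a.denom = 0 := h3
        simp [h4, RatFunc.denom_ne_zero]
    refine ⟨hfin.toFinset, fun v => ?_⟩
    simp
  -- sum over the places of the sums over the pairs
  have hT : ∑ v ∈ Pa, ∑ x ∈ W.offDiag, ord v (x.1 - x.2) ≤ 0 := by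
    rw [Finset.sum_comm]
    apply Finset.sum_nonpos
    intro x hx
    rw [Finset.mem_offDiag] at hx
    apply ord_sum (sub_ne_zero.2 hx.2.2)
    intro v hv
    rw [hPa, not_lt] at hv
    have h1 := sc_sub (v := v) (x := x.1) (y := x.2) (E := 1) (M := 0) (by omega)
        (by
          by_cases h0 : x.1 = 0
          · exact Or.inl h0
          · right
            rw [one_mul]
            exact loc_good (by omega) he hW v hv hx.1 h0)
        (by
          by_cases h0 : x.2 = 0
          · exact Or.inl h0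
          · right
            rw [one_mul]
            exact loc_good (by omega) he hW v hv hx.2.1 h0) (sub_ne_zero.2 hx.2.2)
    rwa [one_mul] at h1
  have hD : ∑ v ∈ Pa, (ord v (ddt a) + om v) ≤ -2 := by
    apply ord_dsum hDa
    intro v hv
    rw [hPa, not_lt] at hv
    exact dord_ge v hDa hv
  have key : ∀ v ∈ Pa, 0 ≤ N * (N - 1) * (ord v (ddt a) + om v) +
      P * ∑ x ∈ W.offDiag, ord v (x.1 - x.2) := by
    intro v hv
    rw [hPa] at hv
    set m : ℤ := -ord v a with hm
    have hm1 : 1 ≤ m := by omega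
    set Tv := ∑ x ∈ W.offDiag, ord v (x.1 - x.2) with hTv
    set ov := ord v (ddt a) + om v with hov
    by_cases hex : ∃ y ∈ W, y ≠ 0 ∧ e * ord v y = ord v a
    · obtain ⟨y, hy, hy0, hye⟩ := hex
      obtain ⟨c, T, hT1, hT2, hT3⟩ := classes hts hn hnk hW v hv
      have h1 := pairs_lower W v c T n hT1 hT2 m e P hm1 hEz (by omega) hT3
        (fun y hy hy0 => by
          have := loc_pole (by omega) he hW v hv hy hy0
          rw [hm, neg_neg]; exact this)
      rw [← hNd, ← hTv] at h1
      -- order of the differential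
      have h2 : m * (P - 2) ≤ e * ov := by
        have hz := ddt_fm (p := p) (n := n) (a := a) ht (ht.trans hts) y
        have hz0 : ddt (fm (p ^ s) (p ^ t * n) a y) ≠ 0 := by
          rw [hz]; exact mul_ne_zero (pow_ne_zero _ hy0) hDa
        have hzz : fm (p ^ s) (p ^ t * n) a y ≠ 0 := by
          intro h0; rw [h0] at hz0; exact hz0 (map_zero _)
        have h3 := ord_D v hz0
        rw [hz, ord_mul v (pow_ne_zero _ hy0) hDa, ord_pow v hy0, ← hPd] at h3
        have h4 := loc_pole (by omega) he hW v hv (hW y hy) hzz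
        rw [← hed] at h4
        have h5 : e ≤ m := by
          have h6 : e * (-ord v y) = m := by rw [hm, ← hye]; ring
          have h7 : 1 ≤ -ord v y := by
            by_contra h8
            push Not at h8
            nlinarith
          nlinarith
        have h8 : e * (ord v (fm (p ^ s) (p ^ t * n) a y) - 1) ≤ e * (P * ord v y + ov) := by
          apply mul_le_mul_of_nonneg_left _ (by omega)
          rw [hov]; linarith
        have h9 : e * (P * ord v y + ov) = P * (e * ord v y) + e * ov := by ring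
        rw [h9, hye] at h8
        have h10 : m = -ord v a := hm
        nlinarith
      have hH : N * (((n : ℤ) + 1) * P - P - e + 1) + (n + 1) * (e - 1) ≤
          (n + 1) * (N - 1) * (P - 2) := by
        nlinarith
      have h11 : 0 ≤ ((n : ℤ) + 1) * e * (N * (N - 1) * ov + P * Tv) := by
        have h12 : N * (N - 1) * (n + 1) * (m * (P - 2)) ≤ N * (N - 1) * (n + 1) * (e * ov) := by
          apply mul_le_mul_of_nonneg_left h2
          apply mul_nonneg (mul_nonneg hN0 (by omega)) (by omega)
        have h13 : m * N * (N * (((n : ℤ) + 1) * P - P - e + 1) + (n + 1) * (e - 1)) ≤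
            m * N * ((n + 1) * (N - 1) * (P - 2)) := by
          apply mul_le_mul_of_nonneg_left hH
          apply mul_nonneg (by omega) hN0
        nlinarith
      by_contra hneg
      push Not at hneg
      have : ((n : ℤ) + 1) * e * (N * (N - 1) * ov + P * Tv) < 0 :=
        mul_neg_of_pos_of_neg (mul_pos (by omega) (by omega)) hneg
      omega
    · push Not at hex
      have h0 : ∀ y ∈ W, y ≠ 0 → (P - 1) * ord v y = m := fun y hy hy0 =>
        loc_zero (by omega) he hW v hv hex hy hy0
      have h1 := pairs_lower' W v m P (by omega) h0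
      rw [← hNd, ← hTv] at h1
      have h2 : -(P * m) ≤ (P - 1) * ov := by
        have h3 := ord_D v hDa
        obtain ⟨y, hy, hy0⟩ : ∃ y ∈ W, y ≠ 0 := by
          by_contra hno
          push Not at hno
          have h4 : W ⊆ {0} := fun y hy => Finset.mem_singleton.2 (hno y hy)
          have h5 := Finset.card_le_card h4
          rw [Finset.card_singleton] at h5
          omega
        have h4 := h0 y hy hy0
        have h5 : P - 1 ≤ m := by
          have h6 : 1 ≤ ord v y := by
            by_contra h7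
            push Not at h7
            nlinarith
          nlinarith
        have h6 : -m - 1 ≤ ov := by omega
        nlinarith
      have h11 : 0 ≤ (P - 1) * (N * (N - 1) * ov + P * Tv) := by
        have h12 : N * (N - 1) * (-(P * m)) ≤ N * (N - 1) * ((P - 1) * ov) :=
          mul_le_mul_of_nonneg_left h2 (mul_nonneg hN0 (by omega))
        have h13 : P * (m * (N * N - N)) ≤ P * ((P - 1) * Tv) :=
          mul_le_mul_of_nonneg_left h1 (by omega)
        nlinarith
      by_contra hneg
      push Not at hneg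
      have : (P - 1) * (N * (N - 1) * ov + P * Tv) < 0 :=
        mul_neg_of_pos_of_neg (by omega) hneg
      omega
  have h1 := Finset.sum_nonneg key
  rw [Finset.sum_add_distrib, ← Finset.mul_sum, ← Finset.mul_sum] at h1
  have h2 : N * (N - 1) * ∑ v ∈ Pa, (ord v (ddt a) + om v) ≤ N * (N - 1) * -2 :=
    mul_le_mul_of_nonneg_left hD (mul_nonneg hN0 (by omega))
  have h3 : P * ∑ v ∈ Pa, ∑ x ∈ W.offDiag, ord v (x.1 - x.2) ≤ 0 :=
    mul_nonpos_of_nonneg_of_nonpos (by omega) hT
  nlinarith

end Pool.Agent.U100.BM
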