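import Mathlib
import Pool.Agent.U100.BM.Sum

set_option autoImplicit false

/-! The case in which `a` is a `p`-th power. -/

namespace Pool.Agent.U100.BM

open Polynomial Pool.Agent.H585R2.DiffC

variable {k : Type*} [Field k]

theorem derivs_zero {A B : k[X]} (hB : B ≠ 0) (hc : IsCoprime A B)
    (h : derivative A * B - A * derivative B = 0) : derivative A = 0 ∧ derivative B = 0 := by
  have h1 : derivative A * B = A * derivative B := sub_eq_zero.1 h
  have h2 : B ∣ A * derivative B := ⟨derivative A, by rw [← h1, mul_comm]⟩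
  have h4 := hc.symm.dvd_of_dvd_mul_left h2
  have h3 : derivative B = 0 := by
    rcases Nat.eq_zero_or_pos B.natDegree with h0 | h0
    · exact derivative_of_natDegree_zero h0
    · exact eq_zero_of_dvd_of_natDegree_lt h4 (natDegree_derivative_lt (by omega))
  rw [h3, mul_zero] at h1
  exact ⟨(mul_eq_zero.1 h1).resolve_right hB, h3⟩

theorem poly_pth (p : ℕ) [hp : Fact p.Prime] [CharP k p] [PerfectRing k p] {A : k[X]}
    (h : derivative A = 0) : ∃ G : k[X], A = G ^ p := by
  refine ⟨(contract p A).map (frobeniusEquiv k p).symm.toRingHom, ?_⟩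
  rw [← map_frobenius_expand, map_expand, Polynomial.map_map]
  have h1 : (frobenius k p).comp (frobeniusEquiv k p).symm.toRingHom = RingHom.id k := by
    ext a
    exact (frobeniusEquiv k p).apply_symm_apply a
  rw [h1, Polynomial.map_id, expand_contract p h hp.out.ne_zero]

theorem rat_pth (p : ℕ) [hp : Fact p.Prime] [CharP k p] [PerfectRing k p] {a : RatFunc k}
    (h : ddt a = 0) : ∃ b : RatFunc k, a = b ^ p := by
  by_cases ha : a = 0
  · refine ⟨0, ?_⟩
    rw [ha, zero_pow hp.out.ne_zero]
  obtain ⟨A, B, hA, hB, hc, hab⟩ := exists_rep ha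
  have hab' := hab
  subst hab
  have e : ddt (algebraMap k[X] (RatFunc k) A / algebraMap k[X] (RatFunc k) B) =
      algebraMap k[X] (RatFunc k) (derivative A * B - A * derivative B) /
        algebraMap k[X] (RatFunc k) (B * B) := by
    change dd _ = _
    rw [dd_div _ hB]
    unfold dq
    rw [sq]
  rw [e, div_eq_zero_iff] at h
  have h1 : derivative A * B - A * derivative B = 0 := by
    rcases h with h | h
    · exact (FaithfulSMul.algebraMap_eq_zero_iff k[X] (RatFunc k)).1 h
    · exact absurd h (am_ne (mul_ne_zero hB hB))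
  obtain ⟨hA', hB'⟩ := derivs_zero hB hc h1
  obtain ⟨G, hG⟩ := poly_pth p hA'
  obtain ⟨H, hH⟩ := poly_pth p hB'
  have hG0 : G ≠ 0 := by rintro rfl; rw [zero_pow hp.out.ne_zero] at hG; exact hA hG
  have hH0 : H ≠ 0 := by rintro rfl; rw [zero_pow hp.out.ne_zero] at hH; exact hB hH
  have hb : algebraMap k[X] (RatFunc k) A / algebraMap k[X] (RatFunc k) B =
      (algebraMap k[X] (RatFunc k) G / algebraMap k[X] (RatFunc k) H) ^ p := by
    rw [hG, hH, map_pow, map_pow, div_pow]
  exact ⟨algebraMap k[X] (RatFunc k) G / algebraMap k[X] (RatFunc k) H, hb⟩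

/-- preperiodic points are `p`-th powers if `a` is a high `p`-power -/
theorem all_pth {p : ℕ} [hp : Fact p.Prime] [hK : CharP (RatFunc k) p] [IsAlgClosed k]
    {t r n : ℕ} {a1 : RatFunc k} {W : Finset (RatFunc k)} (ht : 1 ≤ t)
    (hn : 1 ≤ n) (hnk : (n : k) ≠ 0) (ha0 : a1 ≠ 0)
    (hD : ddt a1 = 0)
    (hW : ∀ y ∈ W, fm (p ^ (t + r)) (p ^ t * n) (a1 ^ p ^ t) y ∈ W) {z : RatFunc k}
    (hz : z ∈ W) : ddt z = 0 := by
  by_contra hDz
  have hpp := hp.out.pos
  have hP : 1 ≤ p ^ (t + r) := Nat.one_le_pow _ _ hpp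
  have he : 1 ≤ p ^ t * n := Nat.one_le_iff_ne_zero.2
    (mul_ne_zero (pow_ne_zero _ hpp.ne') (by omega))
  have hz0 : z ≠ 0 := by rintro rfl; exact hDz (map_zero _)
  have hnK : (n : RatFunc k) ≠ 0 := by
    have h1 : (n : RatFunc k) = algebraMap k (RatFunc k) (n : k) := by simp
    rw [h1, Ne, FaithfulSMul.algebraMap_eq_zero_iff]
    exact hnk
  set a := a1 ^ p ^ t with ha
  have hord : ∀ v, 0 ≤ ord v (ddt z) + om v := by
    intro v
    by_cases hva : 0 ≤ ord v a
    · exact dord_ge v hDz (loc_good hP he hW v hva hz hz0)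
    push Not at hva
    by_cases hvz : ((p ^ t * n : ℕ) : ℤ) * ord v z = ord v a
    · -- the main case
      set y1 := z ^ (p ^ r + n) + a1 * z ^ p ^ r with hy1
      have hy : fm (p ^ (t + r)) (p ^ t * n) a z = y1 ^ p ^ t := by
        rw [hy1, add_pow_char_pow, mul_pow, ← pow_mul, ← pow_mul, ha]
        unfold fm
        rw [add_mul, ← pow_add, mul_comm n, add_comm r t]
      set u := z ^ n + a1 with hu
      have hu1 : u ^ p ^ t = z ^ (p ^ t * n) + a := by
        rw [hu, add_pow_char_pow, ← pow_mul, mul_comm n]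
      set G := (n : RatFunc k) * z ^ (p ^ r + n - 1) + (if r = 0 then u else 0) with hG
      have hDy1 : ddt y1 = G * ddt z := by
        have e1 : y1 = z ^ p ^ r * u := by rw [hy1, hu, pow_add]; ring
        have hDu : ddt u = (n : RatFunc k) * z ^ (n - 1) * ddt z := by
          rw [hu, map_add, hD, add_zero, Derivation.leibniz_pow, nsmul_eq_mul, smul_eq_mul,
            mul_assoc]
        rw [e1, Derivation.leibniz, hDu, Derivation.leibniz_pow, smul_eq_mul, smul_eq_mul,
          nsmul_eq_mul, smul_eq_mul, hG]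
        have e2 : z ^ p ^ r * z ^ (n - 1) = z ^ (p ^ r + n - 1) := by
          rw [← pow_add]; congr 1; omega
        by_cases hr : r = 0
        · subst hr
          rw [if_pos rfl] 
          simp only [pow_zero, Nat.cast_one, Nat.sub_self, one_mul]
          simp only [pow_zero, pow_one] at e2
          rw [← e2]; ring
        · rw [if_neg hr]
          have h0 : ((p ^ r : ℕ) : RatFunc k) = 0 := by
            rw [Nat.cast_pow, CharP.cast_eq_zero, zero_pow hr]
          rw [h0, ← e2]; ring
      have hvz0 : ord v z < 0 := by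
        have : (1 : ℤ) ≤ (p ^ t * n : ℕ) := by exact_mod_cast he
        by_contra h
        push Not at h
        have := mul_nonneg (by omega : (0 : ℤ) ≤ (p ^ t * n : ℕ)) h
        omega
      have hGo : G ≠ 0 ∧ ord v G = (p ^ r + n - 1 : ℕ) * ord v z := by
        have hn0 : (n : RatFunc k) * z ^ (p ^ r + n - 1) ≠ 0 :=
          mul_ne_zero hnK (pow_ne_zero _ hz0)
        have hno : ord v ((n : RatFunc k) * z ^ (p ^ r + n - 1)) =
            (p ^ r + n - 1 : ℕ) * ord v z := by
          have h1 : (n : RatFunc k) = algebraMap k (RatFunc k) (n : k) := by simp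
          rw [ord_mul v hnK (pow_ne_zero _ hz0), ord_pow v hz0, h1, ord_const v hnk, zero_add]
        have h3 := ord_add_eq v hn0 (y := if r = 0 then u else 0) (by
          by_cases hr : r = 0
          · rw [if_pos hr]
            by_cases hu0 : u = 0
            · exact Or.inl hu0
            · right
              rw [hno]
              have h4 := loc_max hP he hW v hva hz hz0 hvz
              rw [← hu1] at h4
              have h5 := h4.resolve_left (pow_ne_zero _ hu0)
              rw [ord_pow v hu0] at h5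
              have h6 : (0 : ℤ) ≤ -ord v a * ((p ^ (t + r) : ℕ) - 1) := by
                have : (1 : ℤ) ≤ (p ^ (t + r) : ℕ) := by exact_mod_cast hP
                exact mul_nonneg (by omega) (by omega)
              have h7 : (1 : ℤ) ≤ (p ^ t : ℕ) := by
                exact_mod_cast Nat.one_le_pow _ _ hpp
              have h8 : (1 : ℤ) ≤ (p ^ t * n : ℕ) := by exact_mod_cast he
              have h9 : 0 ≤ ord v u := by
                by_contra h10
                push Not at h10
                have h11 : ((p ^ t : ℕ) : ℤ) * ord v u < 0 :=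
                  mul_neg_of_pos_of_neg (by omega) h10
                have h12 : ((p ^ t * n : ℕ) : ℤ) * (((p ^ t : ℕ) : ℤ) * ord v u) < 0 :=
                  mul_neg_of_pos_of_neg (by omega) h11
                omega
              have h13 : (1 : ℤ) ≤ (p ^ r + n - 1 : ℕ) := by
                rw [hr]
                have : 1 ≤ p ^ 0 + n - 1 := by rw [pow_zero]; omega
                exact_mod_cast this
              nlinarith
          · rw [if_neg hr]; exact Or.inl rfl)
        rw [hno] at h3
        exact h3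
      have hDy1' : ddt y1 ≠ 0 := by rw [hDy1]; exact mul_ne_zero hGo.1 hDz
      have hy10 : y1 ≠ 0 := by intro h0; rw [h0] at hDy1'; exact hDy1' (map_zero _)
      have h1 := ord_D v hDy1'
      rw [hDy1, ord_mul v hGo.1 hDz, hGo.2] at h1
      have h2 := loc_pole hP he hW v hva (hW z hz) (by rw [hy]; exact pow_ne_zero _ hy10)
      rw [hy, ord_pow v hy10] at h2
      -- notation
      obtain ⟨h, hh⟩ : ∃ h : ℤ, h = -ord v z := ⟨_, rfl⟩
      have hh1 : 1 ≤ h := by omega
      set Q : ℤ := ((p ^ t : ℕ) : ℤ) with hQ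
      have hQ2 : 2 ≤ Q := by
        have : 2 ≤ p ^ t := (hp.out.two_le).trans (Nat.le_self_pow (by omega) p)
        rw [hQ]; exact_mod_cast this
      have hee : ((p ^ t * n : ℕ) : ℤ) = Q * n := by rw [hQ]; push_cast; ring
      have hR : ((p ^ r + n - 1 : ℕ) : ℤ) = (p ^ r : ℕ) + n - 1 := by
        have : 1 ≤ p ^ r + n := by omega
        rw [Nat.cast_sub this]; push_cast; ring
      have hR1 : (1 : ℤ) ≤ (p ^ r : ℕ) := by exact_mod_cast Nat.one_le_pow _ _ hpp
      rw [hR] at h1
      rw [hee] at h2 hvz
      set R : ℤ := ((p ^ r : ℕ) : ℤ)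
      set o := ord v (ddt z) + om v with ho
      have hn1 : (1 : ℤ) ≤ n := by exact_mod_cast hn
      have hvzh : ord v z = -h := by omega
      rw [hvzh] at h1 hvz
      -- h2 : ord v a ≤ Q n (Q ord y1); ord v a = - Q n h, hence - h ≤ Q ord y1
      have h3 : -h ≤ Q * ord v y1 := by
        have h4 : Q * n * (-h) ≤ Q * n * (Q * ord v y1) := by rw [hvz]; exact h2
        exact le_of_mul_le_mul_left h4 (mul_pos (by omega) (by omega))
      have h5 : ord v y1 - 1 ≤ -((R + n - 1) * h) + o := by
        rw [ho]; linarith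
      have h6 : Q * (ord v y1 - 1) ≤ Q * (-((R + n - 1) * h) + o) :=
        mul_le_mul_of_nonneg_left h5 (by omega)
      by_contra hneg
      push Not at hneg
      have h7 : Q * o ≤ -Q := by nlinarith
      have h8 : Q * h ≤ Q * ((R + n - 1) * h) := by
        apply mul_le_mul_of_nonneg_left _ (by omega)
        nlinarith
      nlinarith
    · have h1 := loc_alt hP he hW v hva hz hz0 hvz
      apply dord_ge v hDz
      have h2 := h1.2.2
      have h3 : (1 : ℤ) ≤ (p ^ t * n : ℕ) := by exact_mod_cast he
      have h4 : (1 : ℤ) ≤ (p ^ (t + r) : ℕ) := by exact_mod_cast hP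
      by_contra h5
      push Not at h5
      have h6 : (0 : ℤ) ≤ -ord v a * (((p ^ t * n : ℕ) : ℤ) - 1) :=
        mul_nonneg (by omega) (by omega)
      have h7 : ((p ^ t * n : ℕ) : ℤ) * (p ^ (t + r) : ℕ) * ord v z < 0 :=
        mul_neg_of_pos_of_neg (mul_pos (by omega) (by omega)) h5
      omega
  have h1 := ord_dsum hDz ∅ (fun v _ => hord v)
  simp at h1

end Pool.Agent.U100.BM
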