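import Mathlib
import Pool.Agent.U100.BM.Desc

set_option autoImplicit false

/-! Induction on the `p`-power of `a`. -/

namespace Pool.Agent.U100.BM

open Polynomial Pool.Agent.H585R2.DiffC

variable {k : Type*} [Field k]

theorem exists_ord_ne [IsAlgClosed k] {a : RatFunc k} (ha0 : a ≠ 0)
    (ha : ∀ c : k, a ≠ algebraMap k (RatFunc k) c) : ∃ v, ord v a ≠ 0 := by
  by_contra hno
  push Not at hno
  obtain ⟨c, hc, h⟩ := ord_res none ha0 (hno none)
  rcases h with h | h
  · exact ha c h
  · have h1 := ord_sum h.1 {none} (by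
      intro v _
      have h2 := sc_sub (v := v) (x := a) (y := algebraMap k (RatFunc k) c) (E := 1) (M := 0)
        (by omega) (Or.inr (by rw [hno v]; norm_num)) (Or.inr (by rw [ord_const v hc]; norm_num))
        h.1
      rwa [one_mul] at h2)
    rw [Finset.sum_singleton] at h1
    omega

theorem decomp {p : ℕ} [hp : Fact p.Prime] [CharP k p] [PerfectRing k p] (v : Option k) (N : ℕ) :
    ∀ a : RatFunc k, a ≠ 0 → ord v a ≠ 0 → (ord v a).natAbs ≤ N →
      ∃ (j : ℕ) (c : RatFunc k), a = c ^ p ^ j ∧ ddt c ≠ 0 := by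
  induction N with
  | zero => intro a _ h1 h2; omega
  | succ N ih =>
    intro a ha h1 h2
    by_cases h : ddt a = 0
    · obtain ⟨b, rfl⟩ := rat_pth p h
      have hb : b ≠ 0 := by rintro rfl; rw [zero_pow hp.out.ne_zero] at ha; exact ha rfl
      rw [ord_pow v hb] at h1 h2
      have h3 : ord v b ≠ 0 := by rintro h0; rw [h0, mul_zero] at h1; exact h1 rfl
      have h4 : (ord v b).natAbs ≤ N := by
        rw [Int.natAbs_mul, Int.natAbs_natCast] at h2
        have := hp.out.two_le
        have h5 : 1 ≤ (ord v b).natAbs := by omega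
        nlinarith
      obtain ⟨j, c, hc, hd⟩ := ih b hb h3 h4
      exact ⟨j + 1, c, by rw [hc, ← pow_mul, pow_succ], hd⟩
    · exact ⟨0, a, by simp, h⟩

theorem fibre {P e : ℕ} (he : 1 ≤ e) (hP : 1 ≤ P) (a : RatFunc k) (W : Finset (RatFunc k))
    [DecidableEq (RatFunc k)] : W.card ≤ (P + e) * (W.image (fm P e a)).card := by
  apply Finset.card_le_mul_card_image
  intro b _
  set q : (RatFunc k)[X] := X ^ (P + e) + C a * X ^ P - C b with hq
  have hc : q.coeff (P + e) = 1 := by
    have h1 : P + e ≠ P := by omega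
    have h2 : P + e ≠ 0 := by omega
    rw [hq, coeff_sub, coeff_add, coeff_X_pow_self, coeff_C_mul_X_pow, if_neg h1,
      coeff_C, if_neg h2]
    ring
  have hq0 : q ≠ 0 := by intro h; rw [h] at hc; simp at hc
  have hqd : q.natDegree ≤ P + e := by
    rw [hq]
    compute_degree
  have h1 : (W.filter fun x => fm P e a x = b) ⊆ q.roots.toFinset := by
    intro x hx
    rw [Finset.mem_filter] at hx
    rw [Multiset.mem_toFinset, mem_roots hq0, IsRoot.def, hq]
    simp only [eval_sub, eval_add, eval_mul, eval_pow, eval_X, eval_C]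
    have := hx.2
    unfold fm at this
    rw [this, sub_self]
  exact (Finset.card_le_card h1).trans ((Multiset.toFinset_card_le _).trans
    ((card_roots' q).trans hqd))

theorem bound_ind {p : ℕ} [hp : Fact p.Prime] [hkp : CharP k p] [hK : CharP (RatFunc k) p]
    [IsAlgClosed k] {t r n B : ℕ} (ht : 1 ≤ t) (hn : 1 ≤ n) (hnk : (n : k) ≠ 0)
    (hB : ∀ (c : RatFunc k) (W : Finset (RatFunc k)), ddt c ≠ 0 →
      (∀ y ∈ W, fm (p ^ (t + r)) (p ^ t * n) c y ∈ W) → W.card ≤ B)
    (c : RatFunc k) (hc : ddt c ≠ 0) (j : ℕ) :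
    ∀ W : Finset (RatFunc k), (∀ y ∈ W, fm (p ^ (t + r)) (p ^ t * n) (c ^ p ^ j) y ∈ W) →
      W.card ≤ B * (p ^ (t + r) + p ^ t * n) ^ min j t := by
  classical
  have hpp := hp.out.pos
  have hP : 1 ≤ p ^ (t + r) := Nat.one_le_pow _ _ hpp
  have he : 1 ≤ p ^ t * n := Nat.one_le_iff_ne_zero.2
    (mul_ne_zero (pow_ne_zero _ hpp.ne') (by omega))
  have hc0 : c ≠ 0 := by rintro rfl; exact hc (map_zero _)
  induction j with
  | zero =>
    intro W hW
    rw [pow_zero, pow_one] at hW
    have := hB c W hc hW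
    simpa using this
  | succ j ih =>
    intro W hW
    have hinj : Function.Injective (fun x : RatFunc k => x ^ p) := by
      intro x y hxy
      exact frobenius_inj (RatFunc k) p hxy
    set b := c ^ p ^ j with hb
    have hcb : c ^ p ^ (j + 1) = b ^ p := by rw [hb, ← pow_mul, pow_succ]
    rw [hcb] at hW
    clear_value b
    have hfp : ∀ w : RatFunc k, fm (p ^ (t + r)) (p ^ t * n) (b ^ p) (w ^ p) =
        fm (p ^ (t + r)) (p ^ t * n) b w ^ p := by
      intro w
      have e1 : (w ^ p) ^ (p ^ (t + r) + p ^ t * n) = (w ^ (p ^ (t + r) + p ^ t * n)) ^ p := by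
        rw [← pow_mul, ← pow_mul, mul_comm]
      have e2 : (w ^ p) ^ (p ^ (t + r)) = (w ^ (p ^ (t + r))) ^ p := by
        rw [← pow_mul, ← pow_mul, mul_comm]
      unfold fm
      rw [e1, e2, add_pow_char, mul_pow]
    set W' : Finset (RatFunc k) := W.preimage (fun x => x ^ p) hinj.injOn with hW'
    have hW'2 : ∀ y ∈ W', fm (p ^ (t + r)) (p ^ t * n) b y ∈ W' := by
      intro y hy
      rw [hW', Finset.mem_preimage] at hy ⊢
      have := hW _ hy
      rwa [hfp] at this
    have h1 := ih W' hW'2
    by_cases hj : j + 1 ≤ t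
    · have h2 : W.image (fm (p ^ (t + r)) (p ^ t * n) (b ^ p)) ⊆ W'.image (fun x => x ^ p) := by
        intro y hy
        rw [Finset.mem_image] at hy
        obtain ⟨z, hz, rfl⟩ := hy
        rw [Finset.mem_image]
        have e1 : fm (p ^ (t + r)) (p ^ t * n) (b ^ p) z =
            (z ^ (p ^ (t + r - 1) + p ^ (t - 1) * n) + b * z ^ (p ^ (t + r - 1))) ^ p := by
          rw [add_pow_char, mul_pow, ← pow_mul, ← pow_mul, add_mul]
          unfold fm
          show z ^ (p ^ (t + r) + p ^ t * n) + b ^ p * z ^ p ^ (t + r) = _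
          have e2 : p ^ (t + r - 1) * p = p ^ (t + r) := by
            rw [← pow_succ]; congr 1; omega
          have e3 : p ^ (t - 1) * n * p = p ^ t * n := by
            have : p ^ (t - 1) * p = p ^ t := by rw [← pow_succ]; congr 1; omega
            rw [← this]; ring
          rw [e2, e3]
        refine ⟨_, ?_, e1.symm⟩
        rw [hW', Finset.mem_preimage]
        change (_ : RatFunc k) ^ p ∈ W
        rw [← e1]
        exact hW z hz
      have h3 := (Finset.card_le_card h2).trans Finset.card_image_le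
      have h4 := fibre he hP (b ^ p) W
      rw [min_eq_left (by omega : j ≤ t)] at h1
      rw [min_eq_left hj, pow_succ]
      calc W.card ≤ _ := h4
        _ ≤ (p ^ (t + r) + p ^ t * n) * (B * (p ^ (t + r) + p ^ t * n) ^ j) :=
          Nat.mul_le_mul_left _ (h3.trans h1)
        _ = _ := by ring
    · rw [min_eq_right (by omega : t ≤ j)] at h1
      rw [min_eq_right (by omega : t ≤ j + 1)]
      have hall : ∀ z ∈ W, ddt z = 0 := by
        intro z hz
        have e1 : b ^ p = (c ^ p ^ (j + 1 - t)) ^ p ^ t := by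
          rw [hb, ← pow_mul, ← pow_succ, ← pow_mul, ← pow_add]
          congr 2; omega
        rw [e1] at hW
        refine all_pth ht hn hnk (pow_ne_zero _ hc0) ?_ hW hz
        rw [Derivation.leibniz_pow]
        have h0 : ((p ^ (j + 1 - t) : ℕ) : RatFunc k) = 0 := by
          rw [Nat.cast_pow, CharP.cast_eq_zero, zero_pow (by omega)]
        rw [← Nat.cast_smul_eq_nsmul (RatFunc k), h0, zero_smul]
      have h2 : W ⊆ W'.image (fun x => x ^ p) := by
        intro z hz
        obtain ⟨w, rfl⟩ := rat_pth p (hall z hz)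
        rw [Finset.mem_image]
        refine ⟨w, ?_, rfl⟩
        rw [hW', Finset.mem_preimage]
        exact hz
      exact ((Finset.card_le_card h2).trans Finset.card_image_le).trans h1

end Pool.Agent.U100.BM
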