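import Mathlib
import Pool.Agent.U100.BM.Ind

set_option autoImplicit false

/-! Arbitrary constant fields, and the additive case. -/

namespace Pool.Agent.U100.BM

open Polynomial Pool.Agent.H585R2.DiffC

universe u

/-- finite forward orbit -/
def Pre {S : Type u} (f : S → S) (x : S) : Prop := (Set.range fun j : ℕ => f^[j] x).Finite

theorem Pre.step {S : Type u} {f : S → S} {x y : S} (h : y ∈ Set.range fun j : ℕ => f^[j] x) :
    f y ∈ Set.range fun j : ℕ => f^[j] x := by
  obtain ⟨j, rfl⟩ := h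
  exact ⟨j + 1, Function.iterate_succ_apply' f j x⟩

theorem pre_card {S : Type u} [DecidableEq S] {f : S → S} {B : ℕ}
    (h : ∀ W : Finset S, (∀ y ∈ W, f y ∈ W) → W.card ≤ B) :
    {x : S | Pre f x}.encard ≤ B := by
  by_contra hlt
  push Not at hlt
  obtain ⟨T, hT, hTc⟩ := Set.exists_subset_encard_eq (k := ((B + 1 : ℕ) : ℕ∞))
    (s := {x : S | Pre f x}) (by push_cast; exact Order.add_one_le_of_lt hlt)
  have hTf : T.Finite := Set.finite_of_encard_eq_coe hTc
  have hU : (⋃ x ∈ T, Set.range fun j : ℕ => f^[j] x).Finite :=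
    hTf.biUnion fun x hx => hT hx
  have h1 := h hU.toFinset (by
    intro y hy
    rw [Set.Finite.mem_toFinset, Set.mem_iUnion₂] at hy ⊢
    obtain ⟨x, hx, hxy⟩ := hy
    exact ⟨x, hx, Pre.step hxy⟩)
  have h2 : T ⊆ (⋃ x ∈ T, Set.range fun j : ℕ => f^[j] x) := by
    intro x hx
    rw [Set.mem_iUnion₂]
    exact ⟨x, hx, ⟨0, rfl⟩⟩
  have h3 := Set.encard_le_encard h2
  rw [hTc, hU.encard_eq_coe_toFinset_card] at h3
  have h4 : B + 1 ≤ hU.toFinset.card := by exact_mod_cast h3
  omega

section base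

variable {k : Type u} [Field k]

theorem base_change (k : Type u) [Field k] :
    ∃ ψ : RatFunc k →+* RatFunc (AlgebraicClosure k), Function.Injective ψ ∧
      (∀ a, ddt (ψ a) = ψ (ddt a)) ∧
      (∀ a : RatFunc k, (∀ c : k, a ≠ algebraMap k (RatFunc k) c) →
        ∀ c : AlgebraicClosure k, ψ a ≠ algebraMap (AlgebraicClosure k) _ c) := by
  let L := AlgebraicClosure k
  let j : k →+* L := algebraMap k L
  have hj : Function.Injective j := RingHom.injective j
  have hjm : Function.Injective (mapRingHom j) := map_injective j hj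
  let ψ : RatFunc k →+* RatFunc L := IsFractionRing.map hjm
  have hψ : Function.Injective ψ := RingHom.injective ψ
  have hψA : ∀ A : k[X], ψ (algebraMap k[X] (RatFunc k) A) =
      algebraMap L[X] (RatFunc L) (A.map j) := by
    intro A
    exact IsLocalization.map_eq _ A
  refine ⟨ψ, hψ, ?_, ?_⟩
  · intro a
    by_cases ha : a = 0
    · rw [ha, map_zero, map_zero, map_zero, map_zero]
    obtain ⟨A, B, hA, hB, -, rfl⟩ := exists_rep ha
    have hB' : B.map j ≠ 0 := by rwa [Ne, Polynomial.map_eq_zero_iff hj]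
    rw [map_div₀, hψA, hψA]
    change dd _ = ψ (dd _)
    rw [dd_div _ hB, dd_div _ hB']
    unfold dq
    rw [map_div₀, hψA, hψA]
    simp only [Polynomial.map_sub, Polynomial.map_mul, Polynomial.map_pow, derivative_map]
  · intro c hc a ha
    have h1 : algebraMap k[X] (RatFunc k) c.num / algebraMap k[X] (RatFunc k) c.denom = c :=
      RatFunc.num_div_denom c
    have hden : algebraMap k[X] (RatFunc k) c.denom ≠ 0 := am_ne (RatFunc.denom_ne_zero c)
    have h8 : algebraMap k[X] (RatFunc k) c.num = c * algebraMap k[X] (RatFunc k) c.denom :=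
      (div_eq_iff hden).1 h1
    have h2 : c.num.map j = C a * c.denom.map j := by
      apply RatFunc.algebraMap_injective L
      have h3 := congrArg ψ h8
      rw [map_mul, ha, hψA, hψA] at h3
      rw [map_mul, h3, algebraMap_C]
    have h4 : j (c.num.coeff c.denom.natDegree) = a := by
      have h5 := congrArg (fun f => f.coeff c.denom.natDegree) h2
      simp only [coeff_map, coeff_C_mul] at h5
      have h6 : c.denom.coeff c.denom.natDegree = 1 := RatFunc.monic_denom c
      rw [h6, map_one, mul_one] at h5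
      exact h5
    have h7 : c.num = C (c.num.coeff c.denom.natDegree) * c.denom := by
      apply hjm
      show c.num.map j = (C (c.num.coeff c.denom.natDegree) * c.denom).map j
      rw [Polynomial.map_mul, map_C, h4, h2]
    refine hc (c.num.coeff c.denom.natDegree) (mul_right_cancel₀ hden ?_)
    rw [← h8, algebraMap_C, ← map_mul, ← h7]

theorem map_fm {L : Type u} [Field L] (ψ : RatFunc k →+* RatFunc L) (P e : ℕ) (a z : RatFunc k) :
    ψ (fm P e a z) = fm P e (ψ a) (ψ z) := by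
  unfold fm
  rw [map_add, map_mul, map_pow, map_pow]

variable {p : ℕ} [hp : Fact p.Prime] [hkp : CharP k p] {s t n : ℕ}

/-- the main inequality over an arbitrary field of constants -/
theorem main_any (hP3 : 3 ≤ p ^ s) (ht : 1 ≤ t) (hts : t ≤ s) (hpn : ¬ p ∣ n)
    {a : RatFunc k} {W : Finset (RatFunc k)}
    (hW : ∀ y ∈ W, fm (p ^ s) (p ^ t * n) a y ∈ W) (hDa : ddt a ≠ 0) :
    (W.card : ℤ) * ((p ^ s : ℕ) + (p ^ t * n : ℕ) - 1 - 2 * (n + 1)) <
      (n + 1) * ((p ^ s : ℕ) + (p ^ t * n : ℕ) - 3) := by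
  classical
  obtain ⟨ψ, hψ, hψd, -⟩ := base_change k
  have hLp : CharP (AlgebraicClosure k) p :=
    charP_of_injective_algebraMap (RingHom.injective (algebraMap k (AlgebraicClosure k))) p
  have hK : CharP (RatFunc (AlgebraicClosure k)) p :=
    charP_of_injective_algebraMap
      (RingHom.injective (algebraMap (AlgebraicClosure k) (RatFunc (AlgebraicClosure k)))) p
  have hn : 1 ≤ n := by
    rcases Nat.eq_zero_or_pos n with h | h
    · rw [h] at hpn; exact absurd (dvd_zero p) hpn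
    · exact h
  have hnk : (n : AlgebraicClosure k) ≠ 0 := by
    rwa [Ne, CharP.cast_eq_zero_iff (AlgebraicClosure k) p]
  have h1 := main_ineq (p := p) (k := AlgebraicClosure k) (W := W.image ψ) (a := ψ a) hP3 ht hts
    hn hnk (by
      intro y hy
      rw [Finset.mem_image] at hy ⊢
      obtain ⟨z, hz, rfl⟩ := hy
      exact ⟨_, hW z hz, map_fm ψ _ _ a z⟩) (by
      rw [hψd]; intro h; exact hDa (hψ (by rw [h, map_zero])))
  rw [Finset.card_image_of_injective _ hψ] at h1
  exact h1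

/-- a bound for all non-constant `a` over an arbitrary field of constants -/
theorem bound_any (hP3 : 3 ≤ p ^ s) (ht : 1 ≤ t) (hts : t ≤ s) (hpn : ¬ p ∣ n)
    {a : RatFunc k} (ha : ∀ c : k, a ≠ algebraMap k (RatFunc k) c) {W : Finset (RatFunc k)}
    (hW : ∀ y ∈ W, fm (p ^ s) (p ^ t * n) a y ∈ W) :
    W.card ≤ (n + 1) * (p ^ s + p ^ t * n) ^ (t + 1) := by
  classical
  obtain ⟨ψ, hψ, -, hψc⟩ := base_change k
  have hLp : CharP (AlgebraicClosure k) p :=
    charP_of_injective_algebraMap (RingHom.injective (algebraMap k (AlgebraicClosure k))) p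
  have hK : CharP (RatFunc (AlgebraicClosure k)) p :=
    charP_of_injective_algebraMap
      (RingHom.injective (algebraMap (AlgebraicClosure k) (RatFunc (AlgebraicClosure k)))) p
  have hn : 1 ≤ n := by
    rcases Nat.eq_zero_or_pos n with h | h
    · rw [h] at hpn; exact absurd (dvd_zero p) hpn
    · exact h
  have hnk : (n : AlgebraicClosure k) ≠ 0 := by
    rwa [Ne, CharP.cast_eq_zero_iff (AlgebraicClosure k) p]
  have hψa0 : ψ a ≠ 0 := by
    have := hψc a ha 0
    rwa [map_zero] at this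
  obtain ⟨v, hv⟩ := exists_ord_ne hψa0 (hψc a ha)
  obtain ⟨j, c, hc, hdc⟩ := decomp (p := p) v _ (ψ a) hψa0 hv le_rfl
  obtain ⟨r, rfl⟩ := Nat.exists_eq_add_of_le hts
  have hB : ∀ (c : RatFunc (AlgebraicClosure k)) (W : Finset (RatFunc (AlgebraicClosure k))),
      ddt c ≠ 0 → (∀ y ∈ W, fm (p ^ (t + r)) (p ^ t * n) c y ∈ W) →
      W.card ≤ (n + 1) * (p ^ (t + r) + p ^ t * n) := by
    intro c W hdc hW
    have h1 := main_ineq hP3 ht hts hn hnk hW hdc
    have h2 : 2 ≤ p ^ t := (hp.out.two_le).trans (Nat.le_self_pow (by omega) p)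
    have h2' : (2 : ℤ) ≤ (p ^ t : ℕ) := by exact_mod_cast h2
    have h3 : ((p ^ t * n : ℕ) : ℤ) = (p ^ t : ℕ) * n := by push_cast; ring
    have h4 : p = 2 → 4 ≤ p ^ (t + r) := by
      intro h
      subst h
      have h5 : 2 ≤ t + r := by
        by_contra h6
        have h7 : t + r = 1 := by omega
        rw [h7] at hP3
        omega
      calc 4 = 2 ^ 2 := by norm_num
        _ ≤ 2 ^ (t + r) := Nat.pow_le_pow_right (by norm_num) h5
    have hpos : (1 : ℤ) ≤ (p ^ (t + r) : ℕ) + (p ^ t * n : ℕ) - 1 - 2 * (n + 1) := by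
      rw [h3]
      have hn' : (1 : ℤ) ≤ n := by exact_mod_cast hn
      by_cases hp2 : p = 2
      · have h5 : (4 : ℤ) ≤ (p ^ (t + r) : ℕ) := by exact_mod_cast h4 hp2
        nlinarith
      · have h5 : 3 ≤ p ^ t := by
          have : 3 ≤ p := by
            have := hp.out.two_le
            omega
          exact this.trans (Nat.le_self_pow (by omega) p)
        have h5' : (3 : ℤ) ≤ (p ^ t : ℕ) := by exact_mod_cast h5
        have h6 : (3 : ℤ) ≤ (p ^ (t + r) : ℕ) := by exact_mod_cast hP3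
        nlinarith
    have h5 : (W.card : ℤ) ≤ (n + 1) * ((p ^ (t + r) : ℕ) + (p ^ t * n : ℕ)) := by
      have hW0 : (0 : ℤ) ≤ W.card := by positivity
      nlinarith
    exact_mod_cast h5
  have h1 := bound_ind ht hn hnk hB c hdc j (W.image ψ) (by
    intro y hy
    rw [Finset.mem_image] at hy ⊢
    obtain ⟨z, hz, rfl⟩ := hy
    refine ⟨_, hW z hz, ?_⟩
    rw [map_fm ψ, hc])
  rw [Finset.card_image_of_injective _ hψ] at h1
  refine h1.trans ?_
  rw [mul_assoc, ← pow_succ']
  apply Nat.mul_le_mul_left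
  apply Nat.pow_le_pow_right
  · have : 0 < p ^ (t + r) := Nat.pow_pos hp.out.pos
    omega
  · omega

end base

section additive

variable {L : Type u} [Field L]

theorem fq_card [IsAlgClosed L] {p : ℕ} [hp : Fact p.Prime] [CharP L p] {i : ℕ} (hi : 1 ≤ i) :
    ∃ F : Finset L, F.card = p ^ i ∧ ∀ x, x ∈ F ↔ x ^ p ^ i = x := by
  classical
  have h1 : 1 < p ^ i := Nat.one_lt_pow (by omega) hp.out.one_lt
  have hsep : (X ^ p ^ i - X : L[X]).Separable := galois_poly_separable p _ (dvd_pow_self p (by omega))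
  have hne : (X ^ p ^ i - X : L[X]) ≠ 0 := FiniteField.X_pow_card_sub_X_ne_zero L h1
  refine ⟨(X ^ p ^ i - X : L[X]).roots.toFinset, ?_, ?_⟩
  · rw [Multiset.toFinset_card_of_nodup (nodup_roots hsep),
      splits_iff_card_roots.1 (IsAlgClosed.splits _), FiniteField.X_pow_card_sub_X_natDegree_eq L h1]
  · intro x
    rw [Multiset.mem_toFinset, mem_roots hne, IsRoot.def]
    simp [sub_eq_zero]

theorem additive_closed [IsAlgClosed L] {p : ℕ} [hp : Fact p.Prime] [hLp : CharP L p]
    [hK : CharP (RatFunc L) p] {s i : ℕ} (hP3 : 3 ≤ p ^ s) (hs : 1 ≤ s) (hi : 1 ≤ i)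
    {a : RatFunc L} (hDa : ddt a ≠ 0) {y z : RatFunc L} (hz0 : z ≠ 0)
    (hy : Pre (fm (p ^ s) (p ^ s * (p ^ i - 1)) a) y)
    (hz : Pre (fm (p ^ s) (p ^ s * (p ^ i - 1)) a) z) (hy0 : y ≠ 0) :
    y ^ (p ^ i - 1) = z ^ (p ^ i - 1) := by
  classical
  obtain ⟨F, hFc, hF⟩ := fq_card (L := L) (p := p) hi
  set f := fm (p ^ s) (p ^ s * (p ^ i - 1)) a with hf
  have hq1 : 1 ≤ p ^ i := Nat.one_le_pow _ _ hp.out.pos
  have hq2 : 2 ≤ p ^ i := (hp.out.two_le).trans (Nat.le_self_pow (by omega) p)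
  have hexp : p ^ s + p ^ s * (p ^ i - 1) = p ^ i * p ^ s := by
    have : p ^ i = (p ^ i - 1) + 1 := by omega
    nth_rewrite 2 [this]
    ring
  have hlin : ∀ (α β : L) (u w : RatFunc L), α ∈ F → β ∈ F →
      f (algebraMap L _ α * u + algebraMap L _ β * w) =
        algebraMap L _ (α ^ p ^ s) * f u + algebraMap L _ (β ^ p ^ s) * f w := by
    intro α β u w hα hβ
    rw [hF] at hα hβ
    rw [hf]
    unfold fm
    rw [hexp, pow_mul, pow_mul, pow_mul, add_pow_char_pow, mul_pow, mul_pow, ← map_pow, ← map_pow,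
      hα, hβ, add_pow_char_pow, add_pow_char_pow, mul_pow, mul_pow, mul_pow, mul_pow, ← map_pow,
      ← map_pow]
    ring
  have hFpow : ∀ α ∈ F, α ^ p ^ s ∈ F := by
    intro α hα
    rw [hF] at hα ⊢
    rw [← pow_mul, mul_comm, pow_mul, hα]
  by_contra hne
  -- the stable set
  let U : Finset (RatFunc L) := ((F ×ˢ F) ×ˢ (hy.toFinset ×ˢ hz.toFinset)).image
    fun x => algebraMap L _ x.1.1 * x.2.1 + algebraMap L _ x.1.2 * x.2.2
  have hU : ∀ x ∈ U, f x ∈ U := by
    intro x hx
    simp only [U, Finset.mem_image, Finset.mem_product, Prod.exists] at hx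
    obtain ⟨α, β, u, w, ⟨⟨hα, hβ⟩, hu, hw⟩, rfl⟩ := hx
    rw [hlin α β u w hα hβ]
    simp only [U, Finset.mem_image, Finset.mem_product, Prod.exists]
    refine ⟨_, _, f u, f w, ⟨⟨hFpow α hα, hFpow β hβ⟩, ?_, ?_⟩, rfl⟩
    · rw [Set.Finite.mem_toFinset] at hu ⊢
      exact Pre.step hu
    · rw [Set.Finite.mem_toFinset] at hw ⊢
      exact Pre.step hw
  have hnp : ¬ p ∣ (p ^ i - 1) := by
    intro h
    have h1 : p ∣ p ^ i := dvd_pow_self p (by omega)
    have h2 : p ∣ p ^ i - (p ^ i - 1) := Nat.dvd_sub h1 h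
    rw [Nat.sub_sub_self hq1] at h2
    exact hp.out.one_lt.ne' (Nat.dvd_one.1 h2)
  have h1 := main_ineq (p := p) (n := p ^ i - 1) (W := U) (a := a) hP3 hs le_rfl (by omega)
    (by rwa [Ne, CharP.cast_eq_zero_iff L p]) hU hDa
  -- there are many elements
  have h2 : (F ×ˢ F).card ≤ U.card := by
    apply Finset.card_le_card_of_injOn (fun x => algebraMap L _ x.1 * y + algebraMap L _ x.2 * z)
    · intro x hx
      simp only [Finset.coe_product, Set.mem_prod, Finset.mem_coe] at hx
      simp only [U, Finset.coe_image, Set.mem_image, Finset.mem_coe, Finset.mem_product, Prod.exists]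
      refine ⟨x.1, x.2, y, z, ⟨hx, ?_, ?_⟩, rfl⟩
      · rw [Set.Finite.mem_toFinset]; exact ⟨0, rfl⟩
      · rw [Set.Finite.mem_toFinset]; exact ⟨0, rfl⟩
    · intro x hx x' hx' hxx
      simp only [Finset.coe_product, Set.mem_prod, Finset.mem_coe] at hx hx'
      have hxx' : algebraMap L (RatFunc L) x.1 * y + algebraMap L _ x.2 * z =
        algebraMap L _ x'.1 * y + algebraMap L _ x'.2 * z := hxx
      by_cases h3 : x.1 = x'.1
      · rw [h3] at hxx'
        have h4 := add_left_cancel hxx'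
        have h5 := mul_right_cancel₀ hz0 h4
        exact Prod.ext h3 ((algebraMap L (RatFunc L)).injective h5)
      · exfalso
        have h4 : algebraMap L (RatFunc L) (x.1 - x'.1) * y =
            algebraMap L (RatFunc L) (x'.2 - x.2) * z := by
          rw [map_sub, map_sub]; linear_combination hxx'
        have h5 : algebraMap L (RatFunc L) (x.1 - x'.1) ≠ 0 := by
          rw [Ne, FaithfulSMul.algebraMap_eq_zero_iff]
          exact sub_ne_zero.2 h3
        have h6 : x'.2 - x.2 ≠ 0 := by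
          intro h7
          rw [h7, map_zero, zero_mul] at h4
          exact mul_ne_zero h5 hy0 h4
        have hp1 : ∀ c ∈ F, ∀ c' ∈ F, c - c' ≠ 0 → (c - c') ^ (p ^ i - 1) = 1 := by
          intro c hc c' hc' hcc
          rw [hF] at hc hc'
          have h8 : (c - c') ^ p ^ i = c - c' := by rw [sub_pow_char_pow, hc, hc']
          have h9 : (c - c') ^ (p ^ i - 1) * (c - c') = 1 * (c - c') := by
            rw [← pow_succ, Nat.sub_add_cancel hq1, h8, one_mul]
          exact mul_right_cancel₀ hcc h9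
        have h7 := congrArg (fun x => x ^ (p ^ i - 1)) h4
        simp only [mul_pow, ← map_pow] at h7
        rw [hp1 _ hx.1 _ hx'.1 (sub_ne_zero.2 h3), hp1 _ hx'.2 _ hx.2 h6, map_one, one_mul,
          one_mul] at h7
        exact hne h7
  rw [Finset.card_product, hFc] at h2
  have hc : ((p ^ i - 1 : ℕ) : ℤ) = (p ^ i : ℕ) - 1 := by
    rw [Nat.cast_sub hq1]; push_cast; ring
  have he : ((p ^ s * (p ^ i - 1) : ℕ) : ℤ) = (p ^ s : ℕ) * ((p ^ i : ℕ) - 1) := by
    rw [Nat.cast_mul, hc]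
  rw [he, hc] at h1
  have hpq : 3 ≤ p ^ i * (p ^ s - 2) := by
    by_cases hp2 : p = 2
    · have h5 : 2 ≤ p ^ s - 2 := by
        subst hp2
        have h5 : 2 ≤ s := by
          by_contra h6
          have h7 : s = 1 := by omega
          rw [h7] at hP3
          omega
        have : 2 ^ 2 ≤ 2 ^ s := Nat.pow_le_pow_right (by norm_num) h5
        omega
      nlinarith
    · have h3 : 3 ≤ p := by
        have := hp.out.two_le
        omega
      have h4 : 3 ≤ p ^ i := h3.trans (Nat.le_self_pow (by omega) p)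
      have h5 : 1 ≤ p ^ s - 2 := by omega
      nlinarith
  have hpqz : (3 : ℤ) ≤ (p ^ i : ℕ) * ((p ^ s : ℕ) - 2) := by
    have h3 : ((p ^ s - 2 : ℕ) : ℤ) = (p ^ s : ℕ) - 2 := by
      rw [Nat.cast_sub (by omega)]; push_cast; ring
    rw [← h3]
    exact_mod_cast hpq
  have h2z : ((p ^ i : ℕ) : ℤ) * (p ^ i : ℕ) ≤ U.card := by exact_mod_cast h2
  have hqz : (2 : ℤ) ≤ (p ^ i : ℕ) := by exact_mod_cast hq2
  set Q : ℤ := ((p ^ i : ℕ) : ℤ)
  set P : ℤ := ((p ^ s : ℕ) : ℤ)
  set N : ℤ := (U.card : ℤ)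
  have h3 : 0 ≤ P + P * (Q - 1) - 1 - 2 * (Q - 1 + 1) := by nlinarith
  have h4 : Q * Q * (P + P * (Q - 1) - 1 - 2 * (Q - 1 + 1)) ≤
      N * (P + P * (Q - 1) - 1 - 2 * (Q - 1 + 1)) := mul_le_mul_of_nonneg_right h2z h3
  have h5 : 0 ≤ Q * ((Q - 1) * (P * Q - 2 * Q - 3)) := by
    apply mul_nonneg (by omega)
    apply mul_nonneg (by omega)
    nlinarith
  nlinarith

end additive

end Pool.Agent.U100.BM
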